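import Pool.Agent.H30.WF.Bridge
import Pool.Agent.H32.TW.Dict
import Pool.Agent.H79.QG.CFour

/-!
Part (C) of MP_1e629d_co in the terms of `H53/RQ/Defs`.
-/

set_option autoImplicit false

open Finset

namespace Pool.Agent.H30.WF

theorem gen_real {q : ℝ} (hq0 : 0 < q) (hq1 : q ≠ 1) : Gen q 1 where
  q0 := hq0.ne'
  x0 := one_ne_zero
  sub := fun n e => hq1 ((pow_eq_one_iff_of_nonneg hq0.le (by omega)).mp e)
  add := fun n e => by have := pow_pos hq0 n; rw [e] at this; linarith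

theorem sum_pairs (n : ℕ) (f : ℕ → ℕ → ℝ) :
    ∑ d ∈ range (n + 1), ∑ c ∈ range d, f c d = ∑ i ∈ range n, ∑ j ∈ Ioc i n, f i j := by
  apply sum_comm'
  intro x y
  simp only [mem_range, mem_Ioc]
  omega

/-- Part (C): the average of matrix elements is the window functional. -/
theorem partC (q : ℝ) (hq0 : 0 < q) (hq1 : q < 1) (m : ℕ) : ∃ c0 : ℝ, ∀ g : Polynomial ℝ,
    q ^ ((m + 2).choose 2) * (∏ i ∈ range (m + 1), (1 + q ^ (i + 1))) * Pool.H53.RQ.W q m g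
      = (∑ a ∈ range (m + 2), ∑ b ∈ range (m + 2 - a),
          Pool.H53.RQ.coef q (m + 1) a b * g.eval (∑ j ∈ Ico b (m + 2 - a), q ^ j))
        + c0 * g.eval 0 := by
  have hG := gen_real hq0 hq1.ne
  refine ⟨q ^ ((m + 2).choose 2) * (∏ i ∈ range (m + 1), (1 + q ^ (i + 1))) * c0 q m 1, ?_⟩
  intro g
  rw [Pool.Agent.H32.TW.W_eq q hq0 hq1 m g, tower_intervals hG m g,
    ← Pool.Agent.H79.QG.sum_cc_eq hq0 hq1.ne m (fun i j => g.eval (∑ k ∈ Ico i j, q ^ k)),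
    sum_pairs (m + 2) (fun c d => cc q (m + 2) 1 c d * g.eval (∑ i ∈ Ico c d, q ^ i))]
  ring

end Pool.Agent.H30.WF
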