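import Pool.Agent.H30.WF.Link
import Pool.Agent.H35.Tw.Base

/-!
The tower operators: the weighted sum over all words is a sum over intervals.
-/

namespace Pool.Agent.H30.WF

open Finset Pool.Agent.H35.Tw

theorem Wr_symm {K : Type*} [Field K] {V : Type*} [AddCommGroup V] [Module K V] (q : K) :
    ∀ (m : ℕ) (X a b : K) (g : K → V), Wr q m X a b g = Wr q m X b a g := by
  intro m
  induction m with
  | zero =>
    intro X a b g
    rw [Wr_zero, Wr_zero]
    unfold dd
    have h1 : (a - b)⁻¹ • (g a - g b) = (b - a)⁻¹ • (g b - g a) := by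
      rw [← neg_sub b a, ← neg_sub (g b) (g a), inv_neg, neg_smul_neg]
    rw [h1, mul_comm a b, add_comm a b]
  | succ m ih =>
    intro X a b g
    rw [Wr_succ, Wr_succ, ih X a b g, ih (X * q) a b g, mul_comm (X * q ^ m - a) (X * q ^ m - b),
      mul_comm (-X - a) (-X - b)]
    congr 1
    · congr 1
      abel
    · abel

theorem W_eq_Wr {q : ℝ} (h : Gen q 1) : ∀ (m b : ℕ) (y z : ℝ) (g : Polynomial ℝ),
    Adm q m (q ^ b) y → Adm q m (q ^ b) z → y ≠ z → y + z ≠ 0 →
    W q (fun i => q ^ i) m b y z g = Wr q m (q ^ b) y z (fun t => g.eval t) := by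
  have hg : ∀ b : ℕ, Gen q (q ^ b) := fun b => ⟨h.q0, pow_ne_zero _ h.q0, h.sub, h.add⟩
  intro m
  induction m with
  | zero =>
    intro b y z g hy hz h1 h2
    rw [W_zero, base_M y z g hy.ne0 hz.ne0 (sub_ne_zero.mpr h1) h2, Wr_zero]
    unfold dd
    simp only [smul_eq_mul]
    rw [div_eq_inv_mul, div_eq_inv_mul, mul_inv (y * z) (y + z), mul_inv (y * z) (y - z)]
    ring
  | succ m ih =>
    intro b y z g hy hz h1 h2
    have hx : Adm q m (q ^ b) (q ^ b * q ^ m) := (hg b).adm_top m m le_rfl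
    have hn : Adm q m (q ^ b * q) (-(q ^ b)) := (hg b).adm_bot m
    have d2 := hy.sub (le_refl m)
    have d3 := hz.sub (le_refl m)
    have d2' := hy.add (le_refl m)
    have d3' := hz.add (le_refl m)
    have d4 := hy.add0
    have d5 := hz.add0
    have d6 := hy.sub0
    have d7 := hz.sub0
    have e1 : ∀ i : ℕ, q ^ (b + i) = q ^ b * q ^ i := fun i => pow_add q b i
    have e2 : q ^ (b + 1) = q ^ b * q := pow_succ q b
    have hxy : (fun i => q ^ i) (b + m) ≠ y := fun e => d2 (by rw [← e1, sub_eq_zero]; exact e.symm)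
    have hxz : (fun i => q ^ i) (b + m) ≠ z := fun e => d3 (by rw [← e1, sub_eq_zero]; exact e.symm)
    have hny : -(fun i => q ^ i) b ≠ y := fun e => d4 (by rw [← e]; simp)
    have hnz : -(fun i => q ^ i) b ≠ z := fun e => d5 (by rw [← e]; simp)
    rw [W_succ q (fun i => q ^ i) m b y z g h1 hxy hxz hny hnz, Wr_succ]
    have ev : ∀ (c t : ℝ), (g.comp (Polynomial.X + Polynomial.C c)).eval t = g.eval (t + c) := by
      intro c t; simp
    unfold tri
    beta_reduce
    rw [e1 m] at *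
    have i1 := ih b y z g hy.mono hz.mono h1 h2
    have i2 := ih b (q ^ b * q ^ m) z g hx hz.mono (fun e => d3 (by rw [← e, sub_self]))
      (by rw [add_comm]; exact d3')
    have i3 := ih b (q ^ b * q ^ m) y g hx hy.mono (fun e => d2 (by rw [← e, sub_self]))
      (by rw [add_comm]; exact d2')
    have hy' : Adm q m (q ^ (b + 1)) y := by rw [e2]; exact hy.shift
    have hz' : Adm q m (q ^ (b + 1)) z := by rw [e2]; exact hz.shift
    have hn' : Adm q m (q ^ (b + 1)) (-(q ^ b)) := by rw [e2]; exact hn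
    have i4 := ih (b + 1) y z (g.comp (Polynomial.X + Polynomial.C (-(q ^ b) + q ^ b))) hy' hz' h1 h2
    have i5 := ih (b + 1) (-(q ^ b)) z (g.comp (Polynomial.X + Polynomial.C (y + q ^ b))) hn' hz'
      (fun e => d5 (by rw [← e]; ring)) (fun e => d7 (by linear_combination e))
    have i6 := ih (b + 1) (-(q ^ b)) y (g.comp (Polynomial.X + Polynomial.C (z + q ^ b))) hn' hy'
      (fun e => d4 (by rw [← e]; ring)) (fun e => d6 (by linear_combination e))
    rw [i1, i2, i3, i4, i5, i6, e2]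
    simp only [ev, neg_add_cancel, add_zero, smul_eq_mul, ← add_assoc]
    rw [Wr_symm q m (q ^ b) (q ^ b * q ^ m) z, Wr_symm q m (q ^ b) (q ^ b * q ^ m) y,
      Wr_symm q m (q ^ b * q) (-(q ^ b)) z, Wr_symm q m (q ^ b * q) (-(q ^ b)) y]
    simp only [div_eq_inv_mul]
    have s1 : y - -(q ^ b) = y + q ^ b := by ring
    have s2 : z - -(q ^ b) = z + q ^ b := by ring
    rw [s1, s2, mul_comm (y + q ^ b) (y - z), mul_comm (z + q ^ b) (z - y),
      mul_comm (y - q ^ b * q ^ m) (y - z), mul_comm (z - q ^ b * q ^ m) (z - y)]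
    ring

/-- THEOREM C: the weighted sum over all words is a sum over intervals -/
theorem tower_intervals {q : ℝ} (h : Gen q 1) (m : ℕ) (g : Polynomial ℝ) :
    W q (fun i => q ^ i) m 0 (q ^ m) (q ^ (m + 1)) g
      = (∑ d ∈ range (m + 3), ∑ c ∈ range d,
          cc q (m + 2) 1 c d * g.eval (∑ i ∈ Ico c d, q ^ i)) + c0 q m 1 * g.eval 0 := by
  have hA : ∀ n : ℕ, m ≤ n → Adm q m (q ^ 0) (q ^ n) := by
    intro n hn
    have := h.adm_top m n hn
    rwa [one_mul, ← pow_zero q] at this
  have n1 : q ^ m ≠ q ^ (m + 1) := by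
    have := h.xsubne (show m ≠ m + 1 by omega); rwa [one_mul, one_mul] at this
  rw [W_eq_Wr h m 0 _ _ g (hA m le_rfl) (hA (m + 1) (by omega)) n1 (h.qadd m (m + 1))]
  have key := Wr_final h m (fun t => g.eval t)
  simp only [one_mul, smul_eq_mul] at key
  rw [pow_zero]
  exact key

end Pool.Agent.H30.WF
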