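import Pool.Agent.H30.WF.TermK

/-!
The closed form satisfies the window recursion.
-/

namespace Pool.Agent.H30.WF

open Finset

variable {K : Type*} [Field K]

/-- product of the values on a run -/
def U (u : ℕ → K) (i j : ℕ) : K := ∏ k ∈ Ico i j, u k

theorem U_self (u : ℕ → K) (i : ℕ) : U u i i = 1 := by simp [U]

theorem U_top (u : ℕ → K) {i j : ℕ} (h : i ≤ j) : U u i (j + 1) = U u i j * u j := by
  unfold U; rw [prod_Ico_succ_top h]

theorem U_shift (u : ℕ → K) (i j : ℕ) : U (fun k => u (k + 1)) i j = U u (i + 1) (j + 1) := by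
  unfold U; rw [← prod_Ico_add' u i j 1]

theorem U_bot (u : ℕ → K) (j : ℕ) : U u 0 (j + 1) = u 0 * U u 1 (j + 1) := by
  unfold U; rw [prod_eq_prod_Ico_succ_bot (by omega)]

def Gr (q : K) (m : ℕ) (X : K) (u : ℕ → K) (a va b vb : K) : K :=
  ∑ j ∈ range (m + 1), ∑ i ∈ range j, U u i j * (cc q m X i j * Fw q m X i j a va b vb)

def Gk (q : K) (m : ℕ) (X : K) (a va b vb : K) : K :=
  ∑ i ∈ range (m + 1), ee q m X i * Kw q m X i a va b vb

/-- the closed form -/
def Gc (q : K) (m : ℕ) (X : K) (u : ℕ → K) (a va b vb : K) : K :=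
  Gr q m X u a va b vb + Gk q m X a va b vb

theorem Rf_top {q X : K} (h : Gen q X) {m j : ℕ} (hj : j < m) : Rf q m X j (X * q ^ m) = 0 := by
  unfold Rf
  rw [if_neg (by omega), sub_self, zero_div]

theorem Lf_bot {q X : K} {i : ℕ} : Lf q (X * q) (i + 1) (-X) = 0 := by
  rw [Lf_succ]
  have e : q * -X + X * q = 0 := by ring
  rw [e, zero_div]

/-! the `A` part -/

theorem A_term (q : K) (m : ℕ) (X um : K) (i j : ℕ) (a va b vb A : K) :
    A * (Fw q m X i j a va b vb - Fw q m X i j (X * q ^ m) um b vb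
        - Fw q m X i j a va (X * q ^ m) um)
      = A * alw q m X i j a va b vb
        + um * (-(A * (f1 q m X i j (X * q ^ m)
          * ((X * q ^ m - q * b) * f0 q m X i j b + (X * q ^ m - b) * f1 q m X i j b * vb
            + (q * a - X * q ^ m) * f0 q m X i j a
            + (a - X * q ^ m) * f1 q m X i j a * va)))) := by
  unfold Fw alw alg Fg
  ring

theorem A_last {q X : K} (h : Gen q X) {m i : ℕ} (hi : i < m) {a b : K}
    (ha : Adm q (m + 1) X a) (hb : Adm q (m + 1) X b) (va vb : K) :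
    cc q m X i m * (-(q ^ (m + 1) / ((a - X * q ^ m) * (b - X * q ^ m))
        * (f1 q m X i m (X * q ^ m)
          * ((X * q ^ m - q * b) * f0 q m X i m b + (X * q ^ m - b) * f1 q m X i m b * vb
            + (q * a - X * q ^ m) * f0 q m X i m a
            + (a - X * q ^ m) * f1 q m X i m a * va)))) = Sa q m X i a va b vb := by
  obtain ⟨n, rfl⟩ := Nat.exists_eq_add_of_lt hi
  have hq := h.q0
  have h1 := ratA' h (show i ≤ i + n + 1 by omega)
  have hda := ha.qsub hq (show i + n ≤ i + n + 1 by omega)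
  have hdb := hb.qsub hq (show i + n ≤ i + n + 1 by omega)
  have hy := h.xne (i + n + 1)
  have hyc := h.xadd (i + n + 1) i
  unfold Sa ps
  rw [h1]
  have e1 : f1 q (i + n + 1) X i (i + n + 1) (X * q ^ (i + n + 1))
      = (X * q ^ (i + n + 1) * (X * q ^ (i + n + 1) + X * q ^ i))⁻¹ := by
    unfold f1; rw [RfT, one_div]
  have e2 : ∀ t : K, f1 q (i + n + 1) X i (i + n + 1) t = (t * (t + X * q ^ i))⁻¹ := by
    intro t; unfold f1; rw [RfT, one_div]
  have e3 : ∀ t : K, X * q ^ (i + n + 1) - q * t ≠ 0 →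
      (X * q ^ (i + n + 1) - q * t) * f0 q (i + n + 1) X i (i + n + 1) t
        = -(q ^ (i + n + 1)) * Lf q X i t / t := by
    intro t ht
    unfold f0
    rw [mul_div_assoc', mul_comm t (X * q ^ (i + n + 1) - q * t), mul_div_mul_left _ _ ht]
  rw [e1, e2 b, e2 a]
  have e4 : (q * a - X * q ^ (i + n + 1)) * f0 q (i + n + 1) X i (i + n + 1) a
      = -(-(q ^ (i + n + 1)) * Lf q X i a / a) := by
    rw [← e3 a hda]; ring
  rw [e3 b hdb, e4]
  set y := X * q ^ (i + n + 1)
  set c := X * q ^ i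
  have e5 : (y * (y + c)) * (y * (y + c))⁻¹ = 1 := mul_inv_cancel₀ (mul_ne_zero hy hyc)
  set W := cc q (i + n + 1 + 1) X i (i + n + 1 + 1)
  set A := q ^ (i + n + 1 + 1) / ((a - y) * (b - y))
  set Z := -(q ^ (i + n + 1)) * Lf q X i b / b + (y - b) * (b * (b + c))⁻¹ * vb
            + -(-(q ^ (i + n + 1)) * Lf q X i a / a)
            + (a - y) * (a * (a + c))⁻¹ * va
  calc y * (y + c) * W * -(A * ((y * (y + c))⁻¹ * Z))
      = -(W * A * Z) * ((y * (y + c)) * (y * (y + c))⁻¹) := by ring
    _ = _ := by rw [e5]; simp only [Z]; ring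

theorem sum_tri_last (m : ℕ) (f : ℕ → ℕ → K) (g : ℕ → ℕ → K) (s : ℕ → K)
    (h0 : ∀ j < m, ∀ i < j, g i j = 0) (h1 : ∀ i < m, g i m = s i) :
    ∑ j ∈ range (m + 1), ∑ i ∈ range j, (f i j + g i j)
      = (∑ j ∈ range (m + 1), ∑ i ∈ range j, f i j) + ∑ i ∈ range m, s i := by
  simp only [sum_add_distrib]
  congr 1
  rw [sum_range_succ, sum_eq_zero, zero_add]
  · exact sum_congr rfl fun i hi => h1 i (mem_range.mp hi)
  · intro j hj
    exact sum_eq_zero fun i hi => h0 j (mem_range.mp hj) i (mem_range.mp hi)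

theorem A_run {q X : K} (h : Gen q X) {m : ℕ} (u : ℕ → K) {a b : K}
    (ha : Adm q (m + 1) X a) (hb : Adm q (m + 1) X b) (va vb : K) :
    q ^ (m + 1) / ((a - X * q ^ m) * (b - X * q ^ m))
        * (Gr q m X u a va b vb - Gr q m X u (X * q ^ m) (u m) b vb
          - Gr q m X u a va (X * q ^ m) (u m))
      = (∑ j ∈ range (m + 1), ∑ i ∈ range j, U u i j * (cc q m X i j
          * (q ^ (m + 1) / ((a - X * q ^ m) * (b - X * q ^ m)) * alw q m X i j a va b vb)))
        + ∑ i ∈ range m, U u i (m + 1) * Sa q m X i a va b vb := by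
  rw [← sum_tri_last m _ (fun i j => U u i j * (cc q m X i j * (u m *
        (-(q ^ (m + 1) / ((a - X * q ^ m) * (b - X * q ^ m)) * (f1 q m X i j (X * q ^ m)
          * ((X * q ^ m - q * b) * f0 q m X i j b + (X * q ^ m - b) * f1 q m X i j b * vb
            + (q * a - X * q ^ m) * f0 q m X i j a
            + (a - X * q ^ m) * f1 q m X i j a * va)))))))
    (fun i => U u i (m + 1) * Sa q m X i a va b vb)]
  · unfold Gr
    rw [← sum_sub_distrib, ← sum_sub_distrib, mul_sum]
    apply sum_congr rfl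
    intro j _
    rw [← sum_sub_distrib, ← sum_sub_distrib, mul_sum]
    apply sum_congr rfl
    intro i _
    have e := A_term q m X (u m) i j a va b vb (q ^ (m + 1) / ((a - X * q ^ m) * (b - X * q ^ m)))
    linear_combination (U u i j * cc q m X i j) * e
  · intro j hj i _
    have : f1 q m X i j (X * q ^ m) = 0 := by unfold f1; rw [Rf_top h hj, zero_div]
    rw [this]; ring
  · intro i hi
    rw [← A_last h hi ha hb, U_top u hi.le]
    ring

theorem A_kterm (q : K) (m : ℕ) (X um : K) (i : ℕ) (a va b vb A : K) :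
    A * (Kw q m X i a va b vb - Kw q m X i (X * q ^ m) um b vb - Kw q m X i a va (X * q ^ m) um)
      = A * akw q m X i a va b vb
        + um * (-(A * (kb q m X i (X * q ^ m)
          * ((X * q ^ m - b) / (X * q ^ m + b) * kb q m X i b * vb + ka q m X i b
            + (a - X * q ^ m) / (a + X * q ^ m) * kb q m X i a * va - ka q m X i a)))) := by
  unfold Kw akw alk Kg
  ring

theorem A_klast {q X : K} (h : Gen q X) {m : ℕ} {a b : K} (va vb : K) :
    ee q m X m * (-(q ^ (m + 1) / ((a - X * q ^ m) * (b - X * q ^ m))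
        * (kb q m X m (X * q ^ m)
          * ((X * q ^ m - b) / (X * q ^ m + b) * kb q m X m b * vb + ka q m X m b
            + (a - X * q ^ m) / (a + X * q ^ m) * kb q m X m a * va - ka q m X m a))))
      = Sa q m X m a va b vb := by
  have h1 := ratA' h (le_refl m)
  have hy := h.xne m
  have h2 := two_ne h
  have e0 : ee q m X m = X * q ^ m * cc q (m + 1) X m (m + 1) := by
    unfold ee
    rw [h1, div_eq_iff (mul_ne_zero h2 hy)]
    ring
  have e1 : kb q m X m (X * q ^ m) = (X * q ^ m)⁻¹ := by unfold kb; rw [RfT, one_div]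
  have e2 : ∀ t : K, kb q m X m t = 1 / t := by intro t; unfold kb; rw [RfT]
  unfold Sa ps
  rw [e0, e1, e2 a, e2 b]
  unfold ka
  set y := X * q ^ m
  have e5 : y * y⁻¹ = 1 := mul_inv_cancel₀ hy
  set W := cc q (m + 1) X m (m + 1)
  set A := q ^ (m + 1) / ((a - y) * (b - y))
  have e6 : (y - b) / (y + b) * (1 / b) = -((b - y) / (b * (b + y))) := by
    rw [add_comm y b, div_mul_div_comm, mul_one, mul_comm (b + y) b, ← neg_sub b y, neg_div]
  have e7 : (a - y) / (a + y) * (1 / a) = (a - y) / (a * (a + y)) := by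
    rw [div_mul_div_comm, mul_one, mul_comm (a + y) a]
  rw [e6, e7]
  linear_combination (-(W * A * (-((b - y) / (b * (b + y))) * vb + -q ^ m * Lf q X m b / b
    + (a - y) / (a * (a + y)) * va - -q ^ m * Lf q X m a / a))) * e5

theorem A_k {q X : K} (h : Gen q X) {m : ℕ} (um : K) {a b : K} (va vb : K) :
    q ^ (m + 1) / ((a - X * q ^ m) * (b - X * q ^ m))
        * (Gk q m X a va b vb - Gk q m X (X * q ^ m) um b vb - Gk q m X a va (X * q ^ m) um)
      = (∑ i ∈ range (m + 1), ee q m X i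
          * (q ^ (m + 1) / ((a - X * q ^ m) * (b - X * q ^ m)) * akw q m X i a va b vb))
        + um * Sa q m X m a va b vb := by
  unfold Gk
  rw [← sum_sub_distrib, ← sum_sub_distrib, mul_sum, sum_range_succ, sum_range_succ _ m, add_assoc]
  congr 1
  · apply sum_congr rfl
    intro i hi
    have e := A_kterm q m X um i a va b vb (q ^ (m + 1) / ((a - X * q ^ m) * (b - X * q ^ m)))
    have e0 : kb q m X i (X * q ^ m) = 0 := by
      unfold kb; rw [Rf_top h (mem_range.mp hi), zero_div]
    rw [e0] at e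
    linear_combination (ee q m X i) * e
  · have e := A_kterm q m X um m a va b vb (q ^ (m + 1) / ((a - X * q ^ m) * (b - X * q ^ m)))
    rw [← A_klast h]
    linear_combination (ee q m X m) * e

end Pool.Agent.H30.WF
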