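import Pool.Agent.H30.WF.Closed

/-!
The closed form satisfies the window recursion: the `B` part and the assembly.
-/

namespace Pool.Agent.H30.WF

open Finset

variable {K : Type*} [Field K]

theorem B_term (q : K) (m : ℕ) (X u0 w0 : K) (h0 : u0 * w0 = 1) (i j : ℕ) (a va b vb B : K) :
    B * (Fw q m (X * q) i j a va b vb - va * u0 * Fw q m (X * q) i j (-X) w0 b vb
        - vb * u0 * Fw q m (X * q) i j a va (-X) w0)
      = B * bew q m X i j a va b vb
        + u0 * (-(B * (f0 q m (X * q) i j (-X)
          * (vb * (q * (a - -X) * f0 q m (X * q) i j a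
              + (a - q * -X) * f1 q m (X * q) i j a * va)
            - va * (q * (b - -X) * f0 q m (X * q) i j b
              + (b - q * -X) * f1 q m (X * q) i j b * vb))))) := by
  unfold Fw bew beg Fg
  linear_combination (-(B * (va * ((-X - q * b) * f1 q m (X * q) i j (-X) * f0 q m (X * q) i j b
      + (-X - b) * f1 q m (X * q) i j (-X) * f1 q m (X * q) i j b * vb)
    + vb * ((q * a - -X) * f0 q m (X * q) i j a * f1 q m (X * q) i j (-X)
      + (a - -X) * f1 q m (X * q) i j a * f1 q m (X * q) i j (-X) * va)))) * h0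

theorem B_first {q X : K} (h : Gen q X) {m j : ℕ} (hj : j ≤ m) (hj0 : 0 < j) {a b : K}
    (ha : Adm q (m + 1) X a) (hb : Adm q (m + 1) X b) (va vb : K) :
    cc q m (X * q) 0 j * (-(1 / ((a + X) * (b + X)) * (f0 q m (X * q) 0 j (-X)
          * (vb * (q * (a - -X) * f0 q m (X * q) 0 j a
              + (a - q * -X) * f1 q m (X * q) 0 j a * va)
            - va * (q * (b - -X) * f0 q m (X * q) 0 j b
              + (b - q * -X) * f1 q m (X * q) 0 j b * vb))))) = Tb q m X j a va b vb := by
  have hq := h.q0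
  have h1 := ratB' h hj
  have hX := h.x0
  have hQ : q ^ m ≠ 0 := pow_ne_zero _ hq
  have hd : X * q + X * q ^ (j + 1) ≠ 0 := by simpa using h.xadd 1 (j + 1)
  have hs : ∀ k : ℕ, X * q * q ^ k = X * q ^ (k + 1) := fun k => by ring
  have e0 : cc q m (X * q) 0 j * q ^ m = X * (X * q + X * q ^ (j + 1)) * cc q (m + 1) X 0 (j + 1) := by
    apply mul_right_cancel₀ hq
    rw [mul_assoc, ← pow_succ, h1]
    ring
  have e1 : cc q m (X * q) 0 j * f0 q m (X * q) 0 j (-X) = cc q (m + 1) X 0 (j + 1) := by
    unfold f0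
    rw [Lf_zero, hs, mul_one]
    have e : -(q ^ m) / (-X * (X * q ^ (j + 1) - q * -X))
        = q ^ m / (X * (X * q + X * q ^ (j + 1))) := by
      have : -X * (X * q ^ (j + 1) - q * -X) = -(X * (X * q + X * q ^ (j + 1))) := by ring
      rw [this, neg_div_neg_eq]
    rw [e, mul_div_assoc', e0, mul_comm (X * (X * q + X * q ^ (j + 1))) _,
      mul_div_assoc, div_self (mul_ne_zero hX hd), mul_one]
  have f0e : ∀ t : K, q * (t - -X) * f0 q m (X * q) 0 j t
      = -(q ^ m) * (q * X + q * t) / (t * (X * q ^ (j + 1) - q * t)) := by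
    intro t
    unfold f0
    rw [Lf_zero, hs]
    ring
  have f1e : ∀ t : K, t + X * q ≠ 0 → (t - q * -X) * f1 q m (X * q) 0 j t
      = Rf q m (X * q) j t / t := by
    intro t ht
    unfold f1
    rw [pow_zero, mul_one]
    have : t - q * -X = t + X * q := by ring
    rw [this, mul_div_assoc', mul_comm t (t + X * q), mul_div_mul_left _ _ ht]
  have hm : 0 < m := by omega
  have hta : a + X * q ≠ 0 := by simpa using ha.add (show 1 ≤ m by omega)
  have htb : b + X * q ≠ 0 := by simpa using hb.add (show 1 ≤ m by omega)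
  rw [f0e a, f0e b, f1e a hta, f1e b htb]
  unfold Tb ch
  rw [← e1]
  ring

theorem B_run {q X : K} (h : Gen q X) {m : ℕ} (u : ℕ → K) {w0 : K} (h0 : u 0 * w0 = 1) {a b : K}
    (ha : Adm q (m + 1) X a) (hb : Adm q (m + 1) X b) (va vb : K) :
    1 / ((a + X) * (b + X))
        * (Gr q m (X * q) (fun k => u (k + 1)) a va b vb
          - va * u 0 * Gr q m (X * q) (fun k => u (k + 1)) (-X) w0 b vb
          - vb * u 0 * Gr q m (X * q) (fun k => u (k + 1)) a va (-X) w0)
      = (∑ j ∈ range (m + 1), ∑ i ∈ range j, U u (i + 1) (j + 1) * (cc q m (X * q) i j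
          * (1 / ((a + X) * (b + X)) * bew q m X i j a va b vb)))
        + ∑ j ∈ range m, U u 0 (j + 2) * Tb q m X (j + 1) a va b vb := by
  have key : ∀ j ∈ range (m + 1), ∑ i ∈ range j, (U u (i + 1) (j + 1) * (cc q m (X * q) i j
          * (1 / ((a + X) * (b + X)) * bew q m X i j a va b vb))
        + U u (i + 1) (j + 1) * (cc q m (X * q) i j * (u 0 *
          (-(1 / ((a + X) * (b + X)) * (f0 q m (X * q) i j (-X)
          * (vb * (q * (a - -X) * f0 q m (X * q) i j a
              + (a - q * -X) * f1 q m (X * q) i j a * va)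
            - va * (q * (b - -X) * f0 q m (X * q) i j b
              + (b - q * -X) * f1 q m (X * q) i j b * vb))))))))
      = (∑ i ∈ range j, U u (i + 1) (j + 1) * (cc q m (X * q) i j
          * (1 / ((a + X) * (b + X)) * bew q m X i j a va b vb)))
        + if j = 0 then 0 else U u 0 (j + 1) * Tb q m X j a va b vb := by
    intro j hj
    rw [sum_add_distrib]
    congr 1
    split_ifs with hj0
    · subst hj0; simp
    · obtain ⟨n, rfl⟩ := Nat.exists_eq_succ_of_ne_zero hj0
      rw [Nat.succ_eq_add_one, sum_range_succ', sum_eq_zero, zero_add]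
      · rw [← B_first h (show n + 1 ≤ m by have := mem_range.mp hj; omega) (by omega) ha hb,
          U_bot]
        ring
      · intro i _
        have : f0 q m (X * q) (i + 1) (n + 1) (-X) = 0 := by
          unfold f0; rw [Lf_bot]; ring
        rw [this]; ring
  have key2 : (∑ j ∈ range m, U u 0 (j + 2) * Tb q m X (j + 1) a va b vb)
      = ∑ j ∈ range (m + 1), if j = 0 then 0 else U u 0 (j + 1) * Tb q m X j a va b vb := by
    rw [sum_range_succ']
    simp
  rw [key2, ← sum_add_distrib, ← sum_congr rfl key]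
  unfold Gr
  rw [mul_sum, mul_sum, ← sum_sub_distrib, ← sum_sub_distrib, mul_sum]
  apply sum_congr rfl
  intro j _
  rw [mul_sum, mul_sum, ← sum_sub_distrib, ← sum_sub_distrib, mul_sum]
  apply sum_congr rfl
  intro i _
  rw [U_shift]
  have e := B_term q m X (u 0) w0 h0 i j a va b vb (1 / ((a + X) * (b + X)))
  linear_combination (U u (i + 1) (j + 1) * cc q m (X * q) i j) * e

theorem B_kterm (q : K) (m : ℕ) (X u0 w0 : K) (h0 : u0 * w0 = 1) (i : ℕ) (a va b vb B : K) :
    B * (Kw q m (X * q) i a va b vb - va * u0 * Kw q m (X * q) i (-X) w0 b vb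
        - vb * u0 * Kw q m (X * q) i a va (-X) w0)
      = B * bkw q m X i a va b vb
        + u0 * (-(B * (ka q m (X * q) i (-X)
          * (vb * (-((a - -X) / (a + -X)) * ka q m (X * q) i a + kb q m (X * q) i a * va)
            - va * ((-X - b) / (-X + b) * ka q m (X * q) i b + kb q m (X * q) i b * vb))))) := by
  unfold Kw bkw bek Kg
  linear_combination (-(B * (va * ((-X - b) / (-X + b) * kb q m (X * q) i (-X)
      * kb q m (X * q) i b * vb + kb q m (X * q) i (-X) * ka q m (X * q) i b)
    + vb * ((a - -X) / (a + -X) * kb q m (X * q) i a * kb q m (X * q) i (-X) * va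
      - ka q m (X * q) i a * kb q m (X * q) i (-X))))) * h0

theorem B_kfirst {q X : K} (h : Gen q X) {m : ℕ} {a b : K}
    (ha : Adm q (m + 1) X a) (hb : Adm q (m + 1) X b) (va vb : K) :
    ee q m (X * q) 0 * (-(1 / ((a + X) * (b + X)) * (ka q m (X * q) 0 (-X)
          * (vb * (-((a - -X) / (a + -X)) * ka q m (X * q) 0 a + kb q m (X * q) 0 a * va)
            - va * ((-X - b) / (-X + b) * ka q m (X * q) 0 b + kb q m (X * q) 0 b * vb)))))
      = Tb q m X 0 a va b vb := by
  have hq := h.q0
  have h1 := ratB' h (Nat.zero_le m)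
  have hX := h.x0
  have hQ : q ^ m ≠ 0 := pow_ne_zero _ hq
  have h2 := two_ne h
  have e1 : ee q m (X * q) 0 * ka q m (X * q) 0 (-X) = cc q (m + 1) X 0 (0 + 1) := by
    unfold ee ka
    rw [Lf_zero, pow_zero, mul_one, mul_one]
    have e : cc q m (X * q) 0 0 * q ^ m = X * (X * q + X * q) * cc q (m + 1) X 0 (0 + 1) := by
      apply mul_right_cancel₀ hq
      rw [mul_assoc, ← pow_succ, h1]
      ring
    rw [neg_div_neg_eq, div_mul_div_comm, e]
    rw [div_eq_iff (mul_ne_zero (mul_ne_zero h2 (mul_ne_zero hX hq)) hX)]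
    ring
  have haX := ha.sub0
  have hbX := hb.sub0
  have e2 : ∀ t : K, t - X ≠ 0 → t ≠ 0 → -((t - -X) / (t + -X)) * ka q m (X * q) 0 t
      = -(q ^ m) * (q * X + q * t) / (t * (X * q ^ (0 + 1) - q * t)) := by
    intro t ht ht0
    unfold ka
    rw [Lf_zero]
    have e3 : X * q ^ (0 + 1) - q * t = -(q * (t - X)) := by ring
    have e4 : t + -X = t - X := by ring
    rw [e3, e4]
    field_simp
    ring
  have e5 : (-X - b) / (-X + b) = -((b - -X) / (b + -X)) := by
    have : -X - b = -(b - -X) := by ring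
    rw [this, neg_div, add_comm (-X) b]
  rw [e5, e2 a haX ha.ne0, e2 b hbX hb.ne0]
  unfold Tb ch kb
  rw [← e1]
  ring

theorem B_k {q X : K} (h : Gen q X) {m : ℕ} {u0 w0 : K} (h0 : u0 * w0 = 1) {a b : K}
    (ha : Adm q (m + 1) X a) (hb : Adm q (m + 1) X b) (va vb : K) :
    1 / ((a + X) * (b + X))
        * (Gk q m (X * q) a va b vb - va * u0 * Gk q m (X * q) (-X) w0 b vb
          - vb * u0 * Gk q m (X * q) a va (-X) w0)
      = (∑ i ∈ range (m + 1), ee q m (X * q) i
          * (1 / ((a + X) * (b + X)) * bkw q m X i a va b vb))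
        + u0 * Tb q m X 0 a va b vb := by
  unfold Gk
  rw [mul_sum, mul_sum, ← sum_sub_distrib, ← sum_sub_distrib, mul_sum, sum_range_succ',
    sum_range_succ' _ m, add_assoc]
  congr 1
  · apply sum_congr rfl
    intro i _
    have e := B_kterm q m X u0 w0 h0 (i + 1) a va b vb (1 / ((a + X) * (b + X)))
    have e0 : ka q m (X * q) (i + 1) (-X) = 0 := by
      unfold ka; rw [Lf_bot]; ring
    rw [e0] at e
    linear_combination (ee q m (X * q) (i + 1)) * e
  · have e := B_kterm q m X u0 w0 h0 0 a va b vb (1 / ((a + X) * (b + X)))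
    rw [← B_kfirst h ha hb]
    linear_combination (ee q m (X * q) 0) * e

/-! assembly -/

theorem run_step {q X : K} (h : Gen q X) {m : ℕ} (u : ℕ → K) {a b : K}
    (ha : Adm q (m + 1) X a) (hb : Adm q (m + 1) X b) (va vb : K) :
    Gr q (m + 1) X u a va b vb
      = (∑ j ∈ range (m + 1), ∑ i ∈ range j, U u i j * (cc q m X i j
          * (q ^ (m + 1) / ((a - X * q ^ m) * (b - X * q ^ m)) * alw q m X i j a va b vb)))
        + (∑ i ∈ range (m + 1), U u i (m + 1) * Sa q m X i a va b vb)
        + ((∑ j ∈ range (m + 1), ∑ i ∈ range j, U u (i + 1) (j + 1) * (cc q m (X * q) i j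
          * (1 / ((a + X) * (b + X)) * bew q m X i j a va b vb)))
        + ∑ j ∈ range (m + 1), U u 0 (j + 1) * Tb q m X j a va b vb) := by
  let PA : ℕ → ℕ → K := fun i j => if j = m + 1 then Sa q m X i a va b vb else
    cc q m X i j * (q ^ (m + 1) / ((a - X * q ^ m) * (b - X * q ^ m)) * alw q m X i j a va b vb)
  let QB : ℕ → ℕ → K := fun i j => if i = 0 then Tb q m X (j - 1) a va b vb else
    cc q m (X * q) (i - 1) (j - 1)
      * (1 / ((a + X) * (b + X)) * bew q m X (i - 1) (j - 1) a va b vb)
  have hterm : ∀ j < m + 2, ∀ i < j,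
      cc q (m + 1) X i j * Fw q (m + 1) X i j a va b vb = PA i j + QB i j := by
    intro j hj i hi
    obtain ⟨j', rfl⟩ : ∃ j', j = j' + 1 := ⟨j - 1, by omega⟩
    by_cases h1 : j' = m
    · subst h1
      rcases i with _ | i'
      · simp only [PA, QB, if_true, Nat.add_sub_cancel]
        exact termIV h ha hb va vb
      · simp only [PA, QB, if_true, Nat.add_sub_cancel, Nat.succ_ne_zero, if_false]
        exact termIII h (by omega) ha hb va vb
    · have h2 : ¬ (j' + 1 = m + 1) := by omega
      rcases i with _ | i'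
      · simp only [PA, QB, if_true, Nat.add_sub_cancel, if_neg h2]
        exact termII h (by omega) ha hb va vb
      · simp only [PA, QB, Nat.add_sub_cancel, if_neg h2, Nat.succ_ne_zero, if_false]
        exact termI h (by omega) (by omega) ha hb va vb
  have e1 : Gr q (m + 1) X u a va b vb
      = (∑ j ∈ range (m + 2), ∑ i ∈ range j, U u i j * PA i j)
        + ∑ j ∈ range (m + 2), ∑ i ∈ range j, U u i j * QB i j := by
    unfold Gr
    rw [← sum_add_distrib]
    apply sum_congr rfl
    intro j hj
    rw [← sum_add_distrib]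
    apply sum_congr rfl
    intro i hi
    rw [hterm j (mem_range.mp hj) i (mem_range.mp hi)]
    ring
  rw [e1]
  congr 1
  · rw [sum_range_succ _ (m + 1)]
    congr 1
    · apply sum_congr rfl
      intro j hj
      apply sum_congr rfl
      intro i _
      have : ¬ (j = m + 1) := by have := mem_range.mp hj; omega
      simp only [PA, if_neg this]
    · apply sum_congr rfl
      intro i _
      simp only [PA, if_true]
  · rw [sum_range_succ' _ (m + 1), range_zero, sum_empty, add_zero, ← sum_add_distrib]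
    apply sum_congr rfl
    intro j _
    rw [sum_range_succ']
    simp only [QB, if_true, Nat.add_sub_cancel, Nat.succ_ne_zero, if_false]

theorem k_step {q X : K} (h : Gen q X) {m : ℕ} {a b : K}
    (ha : Adm q (m + 1) X a) (hb : Adm q (m + 1) X b) (hab : a + b ≠ 0) (va vb : K) :
    Gk q (m + 1) X a va b vb
      = (∑ i ∈ range (m + 1), ee q m X i
          * (q ^ (m + 1) / ((a - X * q ^ m) * (b - X * q ^ m)) * akw q m X i a va b vb))
        + ∑ i ∈ range (m + 1), ee q m (X * q) i
          * (1 / ((a + X) * (b + X)) * bkw q m X i a va b vb) := by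
  let PA : ℕ → K := fun i => if i = m + 1 then 0 else ee q m X i
          * (q ^ (m + 1) / ((a - X * q ^ m) * (b - X * q ^ m)) * akw q m X i a va b vb)
  let QB : ℕ → K := fun i => if i = 0 then 0 else ee q m (X * q) (i - 1)
          * (1 / ((a + X) * (b + X)) * bkw q m X (i - 1) a va b vb)
  have hterm : ∀ i < m + 2, ee q (m + 1) X i * Kw q (m + 1) X i a va b vb
      = PA i + QB i + ee q (m + 1) X i * Lam q (q ^ m) (X * q ^ m) X a b va vb := by
    intro i hi
    rcases i with _ | i'
    · have h2 : ¬ (0 = m + 1) := by omega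
      simp only [PA, QB, if_true, if_neg h2, add_zero]
      exact termKII h ha hb hab va vb
    · by_cases h1 : i' = m
      · subst h1
        simp only [PA, QB, if_true, Nat.add_sub_cancel, Nat.succ_ne_zero, if_false, zero_add]
        exact termKIII h ha hb hab va vb
      · have h2 : ¬ (i' + 1 = m + 1) := by omega
        simp only [PA, QB, if_neg h2, Nat.add_sub_cancel, Nat.succ_ne_zero, if_false]
        exact termKI h (by omega) ha hb hab va vb
  have e1 : Gk q (m + 1) X a va b vb
      = (∑ i ∈ range (m + 2), PA i) + ∑ i ∈ range (m + 2), QB i := by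
    unfold Gk
    rw [sum_congr rfl (fun i hi => hterm i (mem_range.mp hi)), sum_add_distrib, sum_add_distrib,
      ← sum_mul, ee_sum m h, zero_mul, add_zero]
  rw [e1]
  congr 1
  · rw [sum_range_succ _ (m + 1)]
    simp only [PA, if_true, add_zero]
    apply sum_congr rfl
    intro i hi
    have : ¬ (i = m + 1) := by have := mem_range.mp hi; omega
    simp only [if_neg this]
  · rw [sum_range_succ' _ (m + 1)]
    simp only [QB, if_true, add_zero, Nat.add_sub_cancel, Nat.succ_ne_zero, if_false]

/-- the closed form satisfies the window recursion -/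
theorem Gc_step {q X : K} (h : Gen q X) {m : ℕ} (u : ℕ → K) {w0 : K} (h0 : u 0 * w0 = 1) {a b : K}
    (ha : Adm q (m + 1) X a) (hb : Adm q (m + 1) X b) (hab : a + b ≠ 0) (va vb : K) :
    Gc q (m + 1) X u a va b vb
      = q ^ (m + 1) / ((a - X * q ^ m) * (b - X * q ^ m))
        * (Gc q m X u a va b vb - Gc q m X u (X * q ^ m) (u m) b vb
          - Gc q m X u a va (X * q ^ m) (u m))
      + 1 / ((a + X) * (b + X))
        * (Gc q m (X * q) (fun k => u (k + 1)) a va b vb
          - va * u 0 * Gc q m (X * q) (fun k => u (k + 1)) (-X) w0 b vb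
          - vb * u 0 * Gc q m (X * q) (fun k => u (k + 1)) a va (-X) w0) := by
  have e1 := A_run h u ha hb va vb
  have e2 := A_k h (m := m) (u m) (a := a) (b := b) va vb
  have e3 := B_run h u h0 ha hb va vb
  have e4 := B_k h h0 ha hb va vb
  have e5 := run_step h u ha hb va vb
  have e6 := k_step h ha hb hab va vb
  have e7 : ∑ i ∈ range (m + 1), U u i (m + 1) * Sa q m X i a va b vb
      = (∑ i ∈ range m, U u i (m + 1) * Sa q m X i a va b vb) + u m * Sa q m X m a va b vb := by
    rw [sum_range_succ, U_top u (le_refl m), U_self, one_mul]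
  have e8 : ∑ j ∈ range (m + 1), U u 0 (j + 1) * Tb q m X j a va b vb
      = (∑ j ∈ range m, U u 0 (j + 2) * Tb q m X (j + 1) a va b vb)
        + u 0 * Tb q m X 0 a va b vb := by
    rw [sum_range_succ', zero_add, U_top u (le_refl 0), U_self, one_mul]
  unfold Gc
  rw [e5, e6, e7, e8]
  linear_combination -e1 - e2 - e3 - e4

end Pool.Agent.H30.WF
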