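import Mathlib

/-!
Window recursion for the tower operators (part C of MP_1e629d_co).

`dd a b g` is the third divided difference of `g` at the four points `0, a, b, a + b`.
`Wr q m X a b g` is the window recursion on the window `X, X q, .., X q^(m-1)` with the two
base nodes `a`, `b`.
`cc q m X i j` is the product formula for the coefficient of the run `[i, j)`.
-/

namespace Pool.Agent.H30.WF

open Finset

variable {K : Type*} [Field K] {V : Type*} [AddCommGroup V] [Module K V]

/-- third divided difference of `g` at the points `0, a, b, a + b` -/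
def dd (a b : K) (g : K → V) : V :=
  (a * b)⁻¹ • ((a + b)⁻¹ • (g (a + b) - g 0) - (a - b)⁻¹ • (g a - g b))

/-- the window recursion -/
def Wr (q : K) : ℕ → K → K → K → (K → V) → V
  | 0, _, a, b, g => dd a b g
  | m + 1, X, a, b, g =>
      q ^ (m + 1) •
        (((a - b) * (a - X * q ^ m))⁻¹ • Wr q m X b (X * q ^ m) g
          + ((b - a) * (b - X * q ^ m))⁻¹ • Wr q m X a (X * q ^ m) g
          + ((X * q ^ m - a) * (X * q ^ m - b))⁻¹ • Wr q m X a b g)
      + (((a - b) * (a + X))⁻¹ • Wr q m (X * q) b (-X) (fun t => g (t + a + X))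
          + ((b - a) * (b + X))⁻¹ • Wr q m (X * q) a (-X) (fun t => g (t + b + X))
          + ((-X - a) * (-X - b))⁻¹ • Wr q m (X * q) a b g)

/-- the coefficient of the run `[i, j)` -/
def cc (q : K) (m : ℕ) (X : K) (i j : ℕ) : K :=
  2 * (X * q ^ i) * (∏ k ∈ Ico i j, (X * q ^ k * (X * q ^ k + X * q ^ i))⁻¹)
    * (∏ k ∈ range i, (X * q ^ k + X * q ^ m)
        / (X * q ^ k * (X * q ^ k - X * q ^ i) * (X * q ^ k + X * q ^ j)))
    * ∏ k ∈ Ico j m, (-(q ^ (k - i)) / (X * q ^ k * (X * q ^ j - X * q ^ (k + 1))))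

theorem Wr_zero (q X a b : K) (g : K → V) : Wr q 0 X a b g = dd a b g := rfl

theorem Wr_succ (q : K) (m : ℕ) (X a b : K) (g : K → V) :
    Wr q (m + 1) X a b g =
      q ^ (m + 1) •
        (((a - b) * (a - X * q ^ m))⁻¹ • Wr q m X b (X * q ^ m) g
          + ((b - a) * (b - X * q ^ m))⁻¹ • Wr q m X a (X * q ^ m) g
          + ((X * q ^ m - a) * (X * q ^ m - b))⁻¹ • Wr q m X a b g)
      + (((a - b) * (a + X))⁻¹ • Wr q m (X * q) b (-X) (fun t => g (t + a + X))
          + ((b - a) * (b + X))⁻¹ • Wr q m (X * q) a (-X) (fun t => g (t + b + X))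
          + ((-X - a) * (-X - b))⁻¹ • Wr q m (X * q) a b g) := rfl

end Pool.Agent.H30.WF
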