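import Pool.Agent.H30.WF.ClosedB

/-!
Evaluation of the closed form at the two nodes right of the window.
-/

namespace Pool.Agent.H30.WF

open Finset

variable {K : Type*} [Field K]

theorem Gc_zero {q X : K} (h : Gen q X) (u : ℕ → K) (a va b vb : K) :
    Gc q 0 X u a va b vb
      = (a - b) / (a + b) * (va * vb - 1) / (a * b) - (va - vb) / (a * b) := by
  unfold Gc Gr Gk
  simp only [zero_add, sum_range_one, range_zero, sum_empty, ee_zero h, one_mul]
  unfold Kw Kg ka kb
  simp only [Lf_zero, RfT, pow_zero]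
  ring

/-- value of the left factor at a node right of the window -/
theorem Lf_node {q X : K} (h : Gen q X) (i n : ℕ) :
    Lf q X i (X * q ^ n) = (X * q ^ (n + 1) + X) / (X * q ^ (n + 1) + X * q ^ i) := by
  have e : q * (X * q ^ n) = X * q ^ (n + 1) := by ring
  rcases i with _ | i
  · have h1 : X * q ^ (n + 1) + X ≠ 0 := by simpa using h.xadd (n + 1) 0
    rw [Lf_zero, pow_zero, mul_one, div_self h1]
  · rw [Lf_succ, e]

theorem aux1 (Q A B C : K) : -Q * (A / B) / C = (-Q * A) / (B * C) := by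
  rw [mul_div_assoc', div_div]

theorem fin00 {q X : K} (h : Gen q X) {m i j : ℕ} (hij : i ≤ j) (hj : j ≤ m) :
    cc q m X i j * (q * f0 q m X i j (X * q ^ m) * f0 q m X i j (X * q ^ (m + 1)))
      = cc q (m + 2) X i j := by
  have r1 := ratA h hij hj
  have r2 := ratA h hij (show j ≤ m + 1 by omega)
  have hq := h.q0
  have hX := h.x0
  have e1 : q * (X * q ^ m) = X * q ^ (m + 1) := by ring
  have e2 : q * (X * q ^ (m + 1)) = X * q ^ (m + 2) := by ring
  unfold f0
  rw [Lf_node h, Lf_node h, e1, e2]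
  rw [show m + 1 + 1 = m + 2 from rfl] at *
  have n1 := h.xne m
  have n2 := h.xne (m + 1)
  have n3 := h.xadd (m + 1) i
  have n4 := h.xadd (m + 2) i
  have n5 : X * q ^ j - X * q ^ (m + 1) ≠ 0 := h.xsub (by omega)
  have n6 : X * q ^ j - X * q ^ (m + 2) ≠ 0 := h.xsub (by omega)
  have n7 : X * q ^ (m + 1) + X ≠ 0 := by simpa using h.xadd (m + 1) 0
  have n8 : X * q ^ (m + 2) + X ≠ 0 := by simpa using h.xadd (m + 2) 0
  have n9 := h.xne (m + 2)
  have s1 : cc q (m + 1) X i j = cc q m X i j * (-(q ^ (m + 1)) * (X * q ^ (m + 1) + X)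
      / (X * q ^ (m + 1) * (X * q ^ (m + 1) + X * q ^ i) * (X * q ^ j - X * q ^ (m + 1)))) := by
    rw [mul_div_assoc', eq_div_iff (mul_ne_zero (mul_ne_zero n2 n3) n5)]
    linear_combination r1
  have s2 : cc q (m + 2) X i j = cc q (m + 1) X i j * (-(q ^ (m + 2)) * (X * q ^ (m + 2) + X)
      / (X * q ^ (m + 2) * (X * q ^ (m + 2) + X * q ^ i) * (X * q ^ j - X * q ^ (m + 2)))) := by
    rw [mul_div_assoc', eq_div_iff (mul_ne_zero (mul_ne_zero n9 n4) n6)]
    linear_combination r2
  have t1 : -(q ^ (m + 1)) * (X * q ^ (m + 1) + X)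
      / (X * q ^ (m + 1) * (X * q ^ (m + 1) + X * q ^ i) * (X * q ^ j - X * q ^ (m + 1)))
      = -(q ^ m) * ((X * q ^ (m + 1) + X) / (X * q ^ (m + 1) + X * q ^ i))
        / (X * q ^ m * (X * q ^ j - X * q ^ (m + 1))) := by
    rw [aux1, div_eq_div_iff (mul_ne_zero (mul_ne_zero n2 n3) n5)
      (mul_ne_zero n3 (mul_ne_zero n1 n5))]
    ring
  have t2 : -(q ^ (m + 2)) * (X * q ^ (m + 2) + X)
      / (X * q ^ (m + 2) * (X * q ^ (m + 2) + X * q ^ i) * (X * q ^ j - X * q ^ (m + 2)))
      = q * (-(q ^ m) * ((X * q ^ (m + 2) + X) / (X * q ^ (m + 2) + X * q ^ i))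
        / (X * q ^ (m + 1) * (X * q ^ j - X * q ^ (m + 2)))) := by
    rw [aux1, mul_div_assoc', div_eq_div_iff (mul_ne_zero (mul_ne_zero n9 n4) n6)
      (mul_ne_zero n4 (mul_ne_zero n2 n6))]
    ring
  rw [s2, s1, t1, t2]
  ring

/-- the run `[i, m+1)` -/
theorem fin10 {q X : K} (h : Gen q X) {m i : ℕ} (hi : i ≤ m) :
    cc q (m + 1) X i (m + 1)
        * (-(q ^ m) * Lf q X i (X * q ^ (m + 1)) / (X * q ^ (m + 1)))
      = (X * q ^ m - X * q ^ (m + 1)) * cc q (m + 2) X i (m + 1) := by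
  have r2 := ratA h (show i ≤ m + 1 by omega) (le_refl (m + 1))
  rw [show m + 1 + 1 = m + 2 from rfl] at r2
  have hq := h.q0
  have n2 := h.xne (m + 1)
  have n4 := h.xadd (m + 2) i
  have hq2 : q ^ 2 ≠ 0 := pow_ne_zero _ hq
  rw [Lf_node h, show m + 1 + 1 = m + 2 from rfl, aux1, mul_div_assoc',
    div_eq_iff (mul_ne_zero n4 n2)]
  apply mul_right_cancel₀ hq2
  linear_combination -r2

theorem fin11 {q X : K} (h : Gen q X) {m i : ℕ} (hi : i ≤ m) :
    cc q (m + 1) X i (m + 1) * (X * q ^ (m + 1) * (X * q ^ (m + 1) + X * q ^ i))⁻¹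
      = cc q (m + 2) X i (m + 2) := by
  rw [ratA' h (show i ≤ m + 1 by omega), mul_comm (X * q ^ (m + 1) * _) _, mul_assoc,
    mul_inv_cancel₀ (mul_ne_zero (h.xne _) (h.xadd _ _)), mul_one]

theorem fin_run {q X : K} (h : Gen q X) (m : ℕ) (u : ℕ → K) :
    Gr q m X u (X * q ^ m) (u m) (X * q ^ (m + 1)) (u (m + 1))
      = (X * q ^ m - X * q ^ (m + 1)) * ((∑ j ∈ range (m + 1), ∑ i ∈ range j,
          cc q (m + 2) X i j * U u i j)
        + ∑ i ∈ range m, (cc q (m + 2) X i (m + 1) * U u i (m + 1)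
            + cc q (m + 2) X i (m + 2) * U u i (m + 2))) := by
  have e1 : q * (X * q ^ m) - X * q ^ (m + 1) = 0 := by ring
  have n1 := h.xne m
  have n2 := h.xne (m + 1)
  have key : ∀ j ∈ range (m + 1), ∀ i ∈ range j, U u i j * (cc q m X i j
      * Fw q m X i j (X * q ^ m) (u m) (X * q ^ (m + 1)) (u (m + 1)))
      = (X * q ^ m - X * q ^ (m + 1)) * (cc q (m + 2) X i j * U u i j)
        + (if j = m then (X * q ^ m - X * q ^ (m + 1)) * (cc q (m + 2) X i (m + 1) * U u i (m + 1)
            + cc q (m + 2) X i (m + 2) * U u i (m + 2)) else 0) := by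
    intro j hj i hi
    have hj' := mem_range.mp hj
    have hi' := mem_range.mp hi
    have h00 := fin00 h hi'.le (show j ≤ m by omega)
    unfold Fw Fg
    rw [e1]
    split_ifs with hjm
    · subst hjm
      have h10 := fin10 h (show i ≤ j by omega)
      have h11 := fin11 h (show i ≤ j by omega)
      have rA := ratA' h (show i ≤ j by omega)
      have n3 := h.xadd j i
      have n5 : X * q ^ j - X * q ^ (j + 2) ≠ 0 := h.xsub (by omega)
      have a1 : f1 q j X i j (X * q ^ j) = (X * q ^ j * (X * q ^ j + X * q ^ i))⁻¹ := by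
        unfold f1; rw [RfT, one_div]
      have b1 : f1 q j X i j (X * q ^ (j + 1))
          = (X * q ^ (j + 1) * (X * q ^ (j + 1) + X * q ^ i))⁻¹ := by
        unfold f1; rw [RfT, one_div]
      have e2 : q * (X * q ^ (j + 1)) = X * q ^ (j + 2) := by ring
      have b0 : (X * q ^ j - q * (X * q ^ (j + 1))) * f0 q j X i j (X * q ^ (j + 1))
          = -(q ^ j) * Lf q X i (X * q ^ (j + 1)) / (X * q ^ (j + 1)) := by
        unfold f0
        rw [e2, mul_div_assoc', mul_comm (X * q ^ (j + 1)) (X * q ^ j - X * q ^ (j + 2)),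
          mul_div_mul_left _ _ n5]
      have c1 : cc q j X i j * f1 q j X i j (X * q ^ j) = cc q (j + 1) X i (j + 1) := by
        rw [a1, rA, mul_comm (X * q ^ j * _) _, mul_assoc,
          mul_inv_cancel₀ (mul_ne_zero n1 n3), mul_one]
      rw [U_top u (show i ≤ j + 1 by omega), U_top u (show i ≤ j by omega)]
      linear_combination (U u i j * (X * q ^ j - X * q ^ (j + 1))) * h00
        + (U u i j * u j * ((X * q ^ j - q * (X * q ^ (j + 1)))
        * f0 q j X i j (X * q ^ (j + 1))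
        + (X * q ^ j - X * q ^ (j + 1)) * f1 q j X i j (X * q ^ (j + 1)) * u (j + 1))) * c1
        + (U u i j * u j * cc q (j + 1) X i (j + 1)) * b0 + (U u i j * u j) * h10
        + (U u i j * u j * u (j + 1) * (X * q ^ j - X * q ^ (j + 1)) * cc q (j + 1) X i (j + 1)) * b1
        + (U u i j * u j * u (j + 1) * (X * q ^ j - X * q ^ (j + 1))) * h11
    · have a1 : f1 q m X i j (X * q ^ m) = 0 := by
        unfold f1; rw [Rf_top h (show j < m by omega), zero_div]
      rw [a1, ← h00]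
      ring
  unfold Gr
  rw [sum_congr rfl (fun j hj => sum_congr rfl (fun i hi => key j hj i hi))]
  rw [sum_tri_last m _ (fun i j => if j = m then (X * q ^ m - X * q ^ (m + 1))
      * (cc q (m + 2) X i (m + 1) * U u i (m + 1)
            + cc q (m + 2) X i (m + 2) * U u i (m + 2)) else 0)
    (fun i => (X * q ^ m - X * q ^ (m + 1)) * (cc q (m + 2) X i (m + 1) * U u i (m + 1)
            + cc q (m + 2) X i (m + 2) * U u i (m + 2)))]
  · rw [mul_add, mul_sum, mul_sum]
    congr 1
    apply sum_congr rfl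
    intro j _
    rw [mul_sum]
  · intro j hj i _
    rw [if_neg (by omega)]
  · intro i _
    rw [if_pos rfl]

/-- the constant term -/
def c0 (q : K) (m : ℕ) (X : K) : K :=
  ∑ i ∈ range (m + 1), ee q m X i * (-(X * q ^ m + X * q ^ (m + 1))⁻¹ * ka q m X i (X * q ^ m)
    * ka q m X i (X * q ^ (m + 1)))

/-- the sum giving the interval `{m+1}` -/
theorem fin_single {q X : K} (h : Gen q X) (m : ℕ) :
    ∑ i ∈ range (m + 1), ee q m X i * (-(ka q m X i (X * q ^ m) * kb q m X i (X * q ^ (m + 1))))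
      = (X * q ^ m - X * q ^ (m + 1)) * cc q (m + 2) X (m + 1) (m + 2) := by
  have hq := h.q0
  have hX := h.x0
  have n0 := h.xne m
  have n1 := h.xne (m + 1)
  have n7 : X * q ^ (m + 1) + X ≠ 0 := by simpa using h.xadd (m + 1) 0
  have n8 : X * q ^ (m + 1) - X * q ^ m ≠ 0 := h.xsub (by omega)
  have hs := ee_sum m h
  have h2 := two_ne h
  have hQ : q ^ (m + 1) ≠ 0 := pow_ne_zero _ hq
  have e0 : ee q (m + 1) X (m + 1) = X * q ^ (m + 1) * cc q (m + 2) X (m + 1) (m + 2) := by
    unfold ee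
    rw [ratA' h (le_refl (m + 1)), div_eq_iff (mul_ne_zero h2 n1)]
    ring
  have key : ∀ i ∈ range (m + 1), ee q m X i
      * (-(ka q m X i (X * q ^ m) * kb q m X i (X * q ^ (m + 1))))
      = ee q (m + 1) X i * ((X * q ^ (m + 1) - X * q ^ m) / (X * q ^ (m + 1))) := by
    intro i hi
    have hi' := mem_range.mp hi
    have n3 := h.xadd (m + 1) i
    have n4 : X * q ^ (m + 1) - X * q ^ i ≠ 0 := h.xsub (by omega)
    have rA := eeA h (show i ≤ m by omega)
    have e1 : ee q (m + 1) X i = ee q m X i * (q ^ (m + 1) * (X * q ^ (m + 1) + X)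
        / (X * q ^ (m + 1) * ((X * q ^ (m + 1) + X * q ^ i) * (X * q ^ (m + 1) - X * q ^ i)))) := by
      rw [mul_div_assoc', eq_div_iff (mul_ne_zero n1 (mul_ne_zero n3 n4))]
      linear_combination -rA
    unfold ka kb
    rw [e1, Lf_node h, RfA i n8, mul_assoc]
    congr 1
    rw [aux1, div_div, div_mul_div_comm, div_mul_div_comm, ← neg_div,
      div_eq_div_iff (mul_ne_zero (mul_ne_zero n3 n0) (mul_ne_zero n4 n1))
        (mul_ne_zero (mul_ne_zero n1 (mul_ne_zero n3 n4)) n1)]
    ring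
  rw [sum_congr rfl key, ← sum_mul]
  rw [sum_range_succ] at hs
  have e2 : ∑ i ∈ range (m + 1), ee q (m + 1) X i = -ee q (m + 1) X (m + 1) := by
    linear_combination hs
  rw [e2, e0, mul_div_assoc', div_eq_iff n1]
  ring

theorem fin_k {q X : K} (h : Gen q X) (m : ℕ) (um un : K) :
    Gk q m X (X * q ^ m) um (X * q ^ (m + 1)) un
      = (X * q ^ m - X * q ^ (m + 1)) * (c0 q m X
          + cc q (m + 2) X m (m + 1) * um
          + cc q (m + 2) X m (m + 2) * (um * un)
          + cc q (m + 2) X (m + 1) (m + 2) * un) := by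
  have n0 := h.xne m
  have n1 := h.xne (m + 1)
  have n2 := h.xadd m (m + 1)
  have h2 := two_ne h
  have key : ∀ i ∈ range (m + 1), ee q m X i
      * Kw q m X i (X * q ^ m) um (X * q ^ (m + 1)) un
      = (X * q ^ m - X * q ^ (m + 1)) * (ee q m X i * (-(X * q ^ m + X * q ^ (m + 1))⁻¹
          * ka q m X i (X * q ^ m) * ka q m X i (X * q ^ (m + 1))))
        + ee q m X i * (-(ka q m X i (X * q ^ m) * kb q m X i (X * q ^ (m + 1)))) * un
        + (if i = m then ee q m X i * kb q m X i (X * q ^ m)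
          * ((X * q ^ m - X * q ^ (m + 1)) * (X * q ^ m + X * q ^ (m + 1))⁻¹
            * kb q m X i (X * q ^ (m + 1)) * (um * un)
            + ka q m X i (X * q ^ (m + 1)) * um) else 0) := by
    intro i hi
    have hi' := mem_range.mp hi
    unfold Kw Kg
    split_ifs with him
    · rw [div_eq_mul_inv]
      ring
    · have a1 : kb q m X i (X * q ^ m) = 0 := by
        unfold kb; rw [Rf_top h (show i < m by omega), zero_div]
      rw [a1, div_eq_mul_inv]
      ring
  unfold Gk
  rw [sum_congr rfl key, sum_add_distrib, sum_add_distrib, ← mul_sum, ← sum_mul, fin_single h,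
    sum_ite_eq', if_pos (mem_range.mpr (Nat.lt_succ_self m))]
  have e0 : ee q m X m * kb q m X m (X * q ^ m) = cc q (m + 1) X m (m + 1) := by
    unfold ee kb
    rw [RfT, ratA' h (le_refl m), div_mul_div_comm, div_eq_iff (mul_ne_zero (mul_ne_zero h2 n0) n0)]
    ring
  have e1 : kb q m X m (X * q ^ (m + 1)) = (X * q ^ (m + 1))⁻¹ := by
    unfold kb; rw [RfT, one_div]
  have h10 := fin10 h (le_refl m)
  have h11 := fin11 h (le_refl m)
  have e2 : (X * q ^ m + X * q ^ (m + 1))⁻¹ * (X * q ^ (m + 1))⁻¹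
      = (X * q ^ (m + 1) * (X * q ^ (m + 1) + X * q ^ m))⁻¹ := by
    rw [← mul_inv, mul_comm (X * q ^ m + X * q ^ (m + 1)), add_comm (X * q ^ m)]
  rw [e0, e1, ← h11, ← e2]
  unfold c0
  unfold ka at *
  linear_combination um * h10

/-- evaluation at the two nodes right of the window -/
theorem Gc_final {q X : K} (h : Gen q X) (m : ℕ) (u : ℕ → K) :
    Gc q m X u (X * q ^ m) (u m) (X * q ^ (m + 1)) (u (m + 1))
      = (X * q ^ m - X * q ^ (m + 1)) * ((∑ d ∈ range (m + 3), ∑ c ∈ range d,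
          cc q (m + 2) X c d * U u c d) + c0 q m X) := by
  unfold Gc
  rw [fin_run h, fin_k h, sum_range_succ _ (m + 2), sum_range_succ _ (m + 1),
    sum_range_succ _ (m + 1), sum_range_succ (fun c => cc q (m + 2) X c (m + 2) * U u c (m + 2)) m,
    sum_range_succ (fun c => cc q (m + 2) X c (m + 1) * U u c (m + 1)) m, sum_add_distrib]
  have e1 : U u m (m + 1) = u m := by rw [U_top u (le_refl m), U_self, one_mul]
  have e2 : U u m (m + 2) = u m * u (m + 1) := by
    rw [U_top u (show m ≤ m + 1 by omega), e1]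
  have e3 : U u (m + 1) (m + 2) = u (m + 1) := by
    rw [U_top u (le_refl (m + 1)), U_self, one_mul]
  rw [e1, e2, e3]
  ring

end Pool.Agent.H30.WF
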