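import Pool.Agent.H30.WF.Final

/-!
The window recursion evaluated: from group like values to arbitrary functions.
-/

namespace Pool.Agent.H30.WF

open Finset

/-! mapping to a bigger field -/

section Map

variable {k : Type*} [Field k] {F : Type*} [Field F] (φ : k →+* F)

theorem Gen.map {q X : k} (h : Gen q X) : Gen (φ q) (φ X) where
  q0 := (map_ne_zero φ).mpr h.q0
  x0 := (map_ne_zero φ).mpr h.x0
  sub := fun n e => h.sub n (φ.injective (by rw [map_pow, e, map_one]))
  add := fun n e => h.add n (φ.injective (by rw [map_pow, e, map_neg, map_one]))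

theorem Adm.map {q X b : k} {m : ℕ} (h : Adm q m X b) : Adm (φ q) m (φ X) (φ b) where
  ne0 := (map_ne_zero φ).mpr h.ne0
  pos := fun i hi e => h.pos i hi (φ.injective (by rw [e, map_mul, map_pow]))
  neg := fun i hi e => h.neg i hi (φ.injective (by rw [e, map_neg, map_mul, map_pow]))

theorem cc_map (q X : k) (m i j : ℕ) : cc (φ q) m (φ X) i j = φ (cc q m X i j) := by
  unfold cc
  simp only [map_mul, map_prod, map_inv₀, map_div₀, map_add, map_sub, map_neg, map_pow, map_ofNat]

theorem ee_map (q X : k) (m i : ℕ) : ee (φ q) m (φ X) i = φ (ee q m X i) := by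
  unfold ee
  simp only [cc_map, map_mul, map_div₀, map_pow, map_ofNat]

theorem Lf_map (q X b : k) (i : ℕ) : Lf (φ q) (φ X) i (φ b) = φ (Lf q X i b) := by
  unfold Lf
  split_ifs
  · rw [map_one]
  · simp only [map_div₀, map_add, map_mul, map_pow]

theorem c0_map (q X : k) (m : ℕ) : c0 (φ q) m (φ X) = φ (c0 q m X) := by
  unfold c0
  rw [map_sum]
  apply sum_congr rfl
  intro i _
  have h1 : ∀ n : ℕ, φ X * φ q ^ n = φ (X * q ^ n) := fun n => by rw [map_mul, map_pow]
  unfold ka
  rw [h1 m, h1 (m + 1), ee_map, Lf_map, Lf_map]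
  simp only [map_mul, map_neg, map_inv₀, map_add, map_div₀, map_pow]

end Map

section Anti

variable {K : Type*} [Field K]

theorem Gc_anti (q : K) (m : ℕ) (X : K) (u : ℕ → K) (a va b vb : K) :
    Gc q m X u a va b vb = -Gc q m X u b vb a va := by
  unfold Gc Gr Gk
  rw [neg_add, ← sum_neg_distrib, ← sum_neg_distrib]
  congr 1
  · apply sum_congr rfl
    intro j _
    rw [← sum_neg_distrib]
    apply sum_congr rfl
    intro i _
    unfold Fw Fg
    ring
  · apply sum_congr rfl
    intro i _
    unfold Kw Kg
    rw [add_comm b a]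
    ring

theorem Adm.mono {q X b : K} {m : ℕ} (h : Adm q (m + 1) X b) : Adm q m X b :=
  ⟨h.ne0, fun i hi => h.pos i (by omega), fun i hi => h.neg i (by omega)⟩

theorem Adm.shift {q X b : K} {m : ℕ} (h : Adm q (m + 1) X b) : Adm q m (X * q) b := by
  refine ⟨h.ne0, fun i hi => ?_, fun i hi => ?_⟩
  · have := h.pos (i + 1) (by omega)
    rwa [pow_succ', ← mul_assoc] at this
  · have := h.neg (i + 1) (by omega)
    rwa [pow_succ', ← mul_assoc] at this

theorem Gen.adm_top {q X : K} (h : Gen q X) (m n : ℕ) (hn : m ≤ n) : Adm q m X (X * q ^ n) :=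
  ⟨h.xne n, fun i hi => h.xsubne (by omega), fun i hi e => h.xadd n i (by rw [e, neg_add_cancel])⟩

theorem Gen.adm_bot {q X : K} (h : Gen q X) (m : ℕ) : Adm q m (X * q) (-X) := by
  refine ⟨neg_ne_zero.mpr h.x0, fun i _ e => ?_, fun i _ e => ?_⟩
  · apply h.xadd 0 (i + 1)
    rw [pow_zero, mul_one, pow_succ', ← mul_assoc, ← e, add_neg_cancel]
  · apply h.xsub (show (0 : ℕ) ≠ i + 1 by omega)
    rw [pow_zero, mul_one, pow_succ', ← mul_assoc]
    linear_combination -e

end Anti

section Group

variable {k : Type*} [Field k] {F : Type*} [Field F] [Algebra k F]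

theorem Wr_group (e : k → F) (he : ∀ s t, e (s + t) = e s * e t) (he0 : e 0 = 1) (q : k) :
    ∀ (m : ℕ) (X a b : k) (c : F), Gen q X → Adm q m X a → Adm q m X b → a ≠ b → a + b ≠ 0 →
    algebraMap k F (a - b) * Wr q m X a b (fun t => c * e t)
      = c * Gc (algebraMap k F q) m (algebraMap k F X) (fun i => e (X * q ^ i))
          (algebraMap k F a) (e a) (algebraMap k F b) (e b) := by
  intro m
  induction m with
  | zero =>
    intro X a b c hg ha hb hab hab'
    have h1 := sub_ne_zero.mpr hab
    rw [Gc_zero (hg.map (algebraMap k F)), Wr_zero]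
    unfold dd
    beta_reduce
    rw [he, he0]
    simp only [Algebra.smul_def, map_inv₀, map_mul, map_add, map_sub]
    have n1 : algebraMap k F a ≠ 0 := (map_ne_zero _).mpr ha.ne0
    have n2 : algebraMap k F b ≠ 0 := (map_ne_zero _).mpr hb.ne0
    have n3 : algebraMap k F a + algebraMap k F b ≠ 0 := by
      rw [← map_add]; exact (map_ne_zero _).mpr hab'
    have n4 : algebraMap k F a - algebraMap k F b ≠ 0 := by
      rw [← map_sub]; exact (map_ne_zero _).mpr h1
    field_simp
  | succ m ih =>
    intro X a b c hg ha hb hab hab'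
    have hy : Adm q m X (X * q ^ m) := hg.adm_top m m le_rfl
    have hz : Adm q m (X * q) (-X) := hg.adm_bot m
    have d1 := sub_ne_zero.mpr hab
    have d2 := ha.sub (le_refl m)
    have d3 := hb.sub (le_refl m)
    have d2' := ha.add (le_refl m)
    have d3' := hb.add (le_refl m)
    have d4 := ha.add0
    have d5 := hb.add0
    have i1 := ih X b (X * q ^ m) c hg hb.mono hy (sub_ne_zero.mp d3) d3'
    have i2 := ih X a (X * q ^ m) c hg ha.mono hy (sub_ne_zero.mp d2) d2'
    have i3 := ih X a b c hg ha.mono hb.mono hab hab'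
    have i4 := ih (X * q) b (-X) (c * (e a * e X)) hg.shift hb.shift hz
      (fun e => hb.add0 (by rw [e, neg_add_cancel])) (fun e => hb.sub0 (by rw [← e]; ring))
    have i5 := ih (X * q) a (-X) (c * (e b * e X)) hg.shift ha.shift hz
      (fun e => ha.add0 (by rw [e, neg_add_cancel])) (fun e => ha.sub0 (by rw [← e]; ring))
    have i6 := ih (X * q) a b c hg.shift ha.shift hb.shift hab hab'
    have hu : ∀ i : ℕ, e (X * q * q ^ i) = e (X * q ^ (i + 1)) := fun i => by
      congr 1; ring
    simp only [hu] at i4 i5 i6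
    have g1 : (fun t => c * e (t + a + X)) = fun t => c * (e a * e X) * e t := by
      funext t; rw [he, he]; ring
    have g2 : (fun t => c * e (t + b + X)) = fun t => c * (e b * e X) * e t := by
      funext t; rw [he, he]; ring
    have hinv : e (X * q ^ 0) * e (-X) = 1 := by
      rw [← he, pow_zero, mul_one, add_neg_cancel, he0]
    have hstep := Gc_step (hg.map (algebraMap k F)) (fun i => e (X * q ^ i)) hinv
      (ha.map (algebraMap k F)) (hb.map (algebraMap k F))
      (by rw [← map_add]; exact (map_ne_zero _).mpr hab') (e a) (e b) (m := m)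
    rw [Wr_succ, g1, g2, hstep]
    have a1 : Gc (algebraMap k F q) m (algebraMap k F X) (fun i => e (X * q ^ i))
        (algebraMap k F b) (e b) (algebraMap k F (X * q ^ m)) (e (X * q ^ m))
        = -Gc (algebraMap k F q) m (algebraMap k F X) (fun i => e (X * q ^ i))
        (algebraMap k F (X * q ^ m)) (e (X * q ^ m)) (algebraMap k F b) (e b) := Gc_anti _ _ _ _ _ _ _ _
    have a2 : Gc (algebraMap k F q) m (algebraMap k F (X * q)) (fun i => e (X * q ^ (i + 1)))
        (algebraMap k F b) (e b) (algebraMap k F (-X)) (e (-X))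
        = -Gc (algebraMap k F q) m (algebraMap k F (X * q)) (fun i => e (X * q ^ (i + 1)))
        (algebraMap k F (-X)) (e (-X)) (algebraMap k F b) (e b) := Gc_anti _ _ _ _ _ _ _ _
    rw [a1] at i1
    rw [a2] at i4
    simp only [map_mul, map_pow, map_neg, pow_zero, mul_one] at i1 i2 i3 i4 i5 i6 ⊢
    set W1 := Wr q m X b (X * q ^ m) fun t => c * e t
    set W2 := Wr q m X a (X * q ^ m) fun t => c * e t
    set W3 := Wr q m X a b fun t => c * e t
    set W4 := Wr q m (X * q) b (-X) fun t => c * (e a * e X) * e t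
    set W5 := Wr q m (X * q) a (-X) fun t => c * (e b * e X) * e t
    set W6 := Wr q m (X * q) a b fun t => c * e t
    simp only [Algebra.smul_def, map_inv₀, map_mul, map_add, map_sub, map_pow, map_neg] at *
    set a' := algebraMap k F a
    set b' := algebraMap k F b
    set X' := algebraMap k F X
    set q' := algebraMap k F q
    have n1 : a' - b' ≠ 0 := by
      have := (map_ne_zero (algebraMap k F)).mpr d1; rwa [map_sub] at this
    have n2 : a' - X' * q' ^ m ≠ 0 := by
      have := (map_ne_zero (algebraMap k F)).mpr d2; rwa [map_sub, map_mul, map_pow] at this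
    have n3 : b' - X' * q' ^ m ≠ 0 := by
      have := (map_ne_zero (algebraMap k F)).mpr d3; rwa [map_sub, map_mul, map_pow] at this
    have n4 : a' + X' ≠ 0 := by
      have := (map_ne_zero (algebraMap k F)).mpr d4; rwa [map_add] at this
    have n5 : b' + X' ≠ 0 := by
      have := (map_ne_zero (algebraMap k F)).mpr d5; rwa [map_add] at this
    set G1 := Gc q' m X' (fun i => e (X * q ^ i)) (X' * q' ^ m) (e (X * q ^ m)) b' (e b)
    set G2 := Gc q' m X' (fun i => e (X * q ^ i)) a' (e a) (X' * q' ^ m) (e (X * q ^ m))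
    set G3 := Gc q' m X' (fun i => e (X * q ^ i)) a' (e a) b' (e b)
    set H1 := Gc q' m (X' * q') (fun i => e (X * q ^ (i + 1))) (-X') (e (-X)) b' (e b)
    set H2 := Gc q' m (X' * q') (fun i => e (X * q ^ (i + 1))) a' (e a) (-X') (e (-X))
    set H3 := Gc q' m (X' * q') (fun i => e (X * q ^ (i + 1))) a' (e a) b' (e b)
    have w1 : W1 = -(c * G1) / (b' - X' * q' ^ m) := by
      rw [eq_div_iff n3]; linear_combination i1
    have w2 : W2 = c * G2 / (a' - X' * q' ^ m) := by
      rw [eq_div_iff n2]; linear_combination i2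
    have w3 : W3 = c * G3 / (a' - b') := by
      rw [eq_div_iff n1]; linear_combination i3
    have w4 : W4 = -(c * (e a * e X) * H1) / (b' + X') := by
      rw [eq_div_iff n5]; linear_combination i4
    have w5 : W5 = c * (e b * e X) * H2 / (a' + X') := by
      rw [eq_div_iff n4]; linear_combination i5
    have w6 : W6 = c * H3 / (a' - b') := by
      rw [eq_div_iff n1]; linear_combination i6
    rw [w1, w2, w3, w4, w5, w6]
    set y := X' * q' ^ m
    have s1 : b' - a' = -(a' - b') := by ring
    have s2 : y - a' = -(a' - y) := by ring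
    have s3 : y - b' = -(b' - y) := by ring
    have s4 : -X' - a' = -(a' + X') := by ring
    have s5 : -X' - b' = -(b' + X') := by ring
    rw [s1, s2, s3, s4, s5]
    set p := a' - b'
    set r := a' - y
    set s := b' - y
    set v := a' + X'
    set w := b' + X'
    field_simp
    ring

/-- values at the two nodes right of the window, group like case -/
theorem Wr_group_final (e : k → F) (he : ∀ s t, e (s + t) = e s * e t) (he0 : e 0 = 1) {q X : k}
    (h : Gen q X) (m : ℕ) :
    Wr q m X (X * q ^ m) (X * q ^ (m + 1)) e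
      = (∑ d ∈ range (m + 3), ∑ c ∈ range d,
          cc q (m + 2) X c d • e (∑ i ∈ Ico c d, X * q ^ i)) + c0 q m X • e 0 := by
  have n1 : X * q ^ m ≠ X * q ^ (m + 1) := h.xsubne (by omega)
  have n2 : X * q ^ m + X * q ^ (m + 1) ≠ 0 := h.xadd _ _
  have n3 := (map_ne_zero (algebraMap k F)).mpr (sub_ne_zero.mpr n1)
  have key := Wr_group e he he0 q m X (X * q ^ m) (X * q ^ (m + 1)) 1 h (h.adm_top m m le_rfl)
    (h.adm_top m (m + 1) (by omega)) n1 n2
  have hfin := Gc_final (h.map (algebraMap k F)) m (fun i => e (X * q ^ i))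
  simp only [one_mul] at key
  have hm : ∀ n : ℕ, algebraMap k F (X * q ^ n) = algebraMap k F X * algebraMap k F q ^ n :=
    fun n => by rw [map_mul, map_pow]
  rw [hm m, hm (m + 1), hfin, ← hm m, ← hm (m + 1), ← map_sub] at key
  have key2 := mul_left_cancel₀ n3 key
  rw [key2]
  congr 1
  · apply sum_congr rfl
    intro d _
    apply sum_congr rfl
    intro c hc
    rw [cc_map, Algebra.smul_def]
    congr 1
    have hcd : c ≤ d := (mem_range.mp hc).le
    clear hc
    rename_i hdm
    clear hdm
    induction d, hcd using Nat.le_induction with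
    | base => rw [U_self, Ico_self, sum_empty, he0]
    | succ d hd ih => rw [U_top _ hd, sum_Ico_succ_top hd, he, ih]
  · rw [c0_map, he0, Algebra.smul_def, mul_one]

end Group

section Lin

variable {K : Type*} [Field K] {V W : Type*} [AddCommGroup V] [Module K V] [AddCommGroup W]
  [Module K W]

theorem Wr_lin (L : V →ₗ[K] W) (q : K) : ∀ (m : ℕ) (X a b : K) (g : K → V),
    L (Wr q m X a b g) = Wr q m X a b (fun t => L (g t)) := by
  intro m
  induction m with
  | zero =>
    intro X a b g
    rw [Wr_zero, Wr_zero]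
    unfold dd
    simp only [map_smul, map_sub]
  | succ m ih =>
    intro X a b g
    rw [Wr_succ, Wr_succ]
    simp only [map_add, map_smul, ih]

end Lin

/-- the window recursion at the two nodes right of the window, for every function `g` -/
theorem Wr_final {V : Type*} [AddCommGroup V] [Module ℝ V] {q X : ℝ} (h : Gen q X) (m : ℕ)
    (g : ℝ → V) :
    Wr q m X (X * q ^ m) (X * q ^ (m + 1)) g
      = (∑ d ∈ range (m + 3), ∑ c ∈ range d,
          cc q (m + 2) X c d • g (∑ i ∈ Ico c d, X * q ^ i)) + c0 q m X • g 0 := by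
  let A := AddMonoidAlgebra ℝ ℝ
  let F := FractionRing A
  let s : ℝ → A := fun t => AddMonoidAlgebra.single t 1
  have hs : ∀ x y, s (x + y) = s x * s y := by
    intro x y
    simp only [s]
    rw [AddMonoidAlgebra.single_mul_single, one_mul]
  have hs0 : s 0 = 1 := rfl
  let e : ℝ → F := fun t => algebraMap A F (s t)
  have he : ∀ x y, e (x + y) = e x * e y := fun x y => by simp only [e]; rw [hs, map_mul]
  have he0 : e 0 = 1 := by simp only [e]; rw [hs0, map_one]
  let i : A →ₗ[ℝ] F := (IsScalarTower.toAlgHom ℝ A F).toLinearMap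
  have hi : LinearMap.ker i = ⊥ := by
    rw [LinearMap.ker_eq_bot]
    exact IsFractionRing.injective A F
  obtain ⟨r, hr⟩ := LinearMap.exists_leftInverse_of_injective i hi
  let l : A →ₗ[ℝ] V := Finsupp.linearCombination ℝ g ∘ₗ
    (AddMonoidAlgebra.coeffLinearEquiv ℝ).toLinearMap
  have hl : ∀ t, l (r (e t)) = g t := by
    intro t
    have h1 : r (e t) = s t := by
      have := LinearMap.congr_fun hr (s t)
      exact this
    rw [h1]
    simp only [l, s, LinearMap.comp_apply, LinearEquiv.coe_coe]
    have h2 : AddMonoidAlgebra.coeffLinearEquiv ℝ (AddMonoidAlgebra.single t (1 : ℝ))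
        = Finsupp.single t (1 : ℝ) := rfl
    rw [h2, Finsupp.linearCombination_single, one_smul]
  have key := congrArg (l ∘ₗ r) (Wr_group_final e he he0 h m)
  rw [Wr_lin, map_add, map_sum, map_smul] at key
  simp only [map_sum, map_smul, LinearMap.comp_apply, hl] at key
  exact key

end Pool.Agent.H30.WF
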