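import Pool.Agent.H30.WF.Def

/-!
Ratios of the run coefficients `cc` and the sum of the diagonal ones.
-/

namespace Pool.Agent.H30.WF

open Finset

variable {K : Type*} [Field K]

/-- the ratio `q` is generic enough -/
structure Gen (q X : K) : Prop where
  q0 : q ≠ 0
  x0 : X ≠ 0
  sub : ∀ n : ℕ, q ^ (n + 1) ≠ 1
  add : ∀ n : ℕ, q ^ n ≠ -1

theorem Gen.shift {q X : K} (h : Gen q X) : Gen q (X * q) :=
  ⟨h.q0, mul_ne_zero h.x0 h.q0, h.sub, h.add⟩

theorem Gen.xne {q X : K} (h : Gen q X) (i : ℕ) : X * q ^ i ≠ 0 :=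
  mul_ne_zero h.x0 (pow_ne_zero _ h.q0)

theorem Gen.xadd {q X : K} (h : Gen q X) (i j : ℕ) : X * q ^ i + X * q ^ j ≠ 0 := by
  have key : ∀ i j : ℕ, i ≤ j → X * q ^ i + X * q ^ j ≠ 0 := by
    intro i j hij he
    obtain ⟨d, rfl⟩ := Nat.exists_eq_add_of_le hij
    have e : X * q ^ i * (1 + q ^ d) = 0 := by rw [← he, pow_add]; ring
    rcases mul_eq_zero.mp e with e | e
    · exact h.xne i e
    · exact h.add d (by linear_combination e)
  rcases le_total i j with hij | hij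
  · exact key i j hij
  · rw [add_comm]; exact key j i hij

theorem Gen.xsub {q X : K} (h : Gen q X) {i j : ℕ} (hij : i ≠ j) :
    X * q ^ i - X * q ^ j ≠ 0 := by
  have key : ∀ i j : ℕ, i < j → X * q ^ i - X * q ^ j ≠ 0 := by
    intro i j hij he
    obtain ⟨d, rfl⟩ := Nat.exists_eq_add_of_lt hij
    have e : X * q ^ i * (1 - q ^ (d + 1)) = 0 := by
      rw [← he, add_assoc, pow_add q i (d + 1)]; ring
    rcases mul_eq_zero.mp e with e | e
    · exact h.xne i e
    · exact h.sub d (by linear_combination -e)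
  rcases lt_or_gt_of_ne hij with h1 | h1
  · exact key i j h1
  · intro he
    exact key j i h1 (by linear_combination -he)

theorem Gen.xsubne {q X : K} (h : Gen q X) {i j : ℕ} (hij : i ≠ j) :
    X * q ^ i ≠ X * q ^ j := fun e => h.xsub hij (sub_eq_zero.mpr e)

theorem Gen.qadd {q X : K} (h : Gen q X) (i j : ℕ) : q ^ i + q ^ j ≠ 0 := by
  intro e
  exact h.xadd i j (by rw [← mul_add, e, mul_zero])

theorem Gen.qsub {q X : K} (h : Gen q X) {i j : ℕ} (hij : i ≠ j) : q ^ i - q ^ j ≠ 0 := by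
  intro e
  exact h.xsub hij (by rw [← mul_sub, e, mul_zero])

theorem Gen.oneadd {q X : K} (h : Gen q X) (j : ℕ) : 1 + q ^ j ≠ 0 := by
  simpa using h.qadd 0 j

theorem Gen.onesub {q X : K} (h : Gen q X) (j : ℕ) : 1 - q ^ (j + 1) ≠ 0 := by
  simpa using h.qsub (show (0 : ℕ) ≠ j + 1 by omega)

theorem tel (q X : K) (m i : ℕ) :
    (∏ k ∈ range i, (X * q ^ k + X * q ^ (m + 1))) * (X * q ^ i + X * q ^ (m + 1))
      = (X + X * q ^ (m + 1)) * q ^ i * ∏ k ∈ range i, (X * q ^ k + X * q ^ m) := by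
  induction i with
  | zero => simp
  | succ i ih =>
    rw [prod_range_succ, prod_range_succ, ih]
    ring

/-- removing the rightmost node, run inside the smaller window -/
theorem ratA {q X : K} (h : Gen q X) {m i j : ℕ} (hij : i ≤ j) (hj : j ≤ m) :
    cc q m X i j * q ^ (m + 1) * (X + X * q ^ (m + 1))
      = -(X * q ^ (m + 1)) * (X * q ^ i + X * q ^ (m + 1)) * (X * q ^ j - X * q ^ (m + 1))
        * cc q (m + 1) X i j := by
  unfold cc
  rw [prod_Ico_succ_top hj]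
  simp only [prod_div_distrib]
  set P1 := ∏ k ∈ Ico i j, (X * q ^ k * (X * q ^ k + X * q ^ i))⁻¹
  set P2 := ∏ k ∈ range i, X * q ^ k * (X * q ^ k - X * q ^ i) * (X * q ^ k + X * q ^ j)
  have hP2 : P2 ≠ 0 := by
    rw [prod_ne_zero_iff]
    intro k hk
    have hk' := mem_range.mp hk
    exact mul_ne_zero (mul_ne_zero (h.xne k) (h.xsub hk'.ne)) (h.xadd k j)
  have ht := tel q X m i
  set N0 := ∏ k ∈ range i, (X * q ^ k + X * q ^ m)
  set N1 := ∏ k ∈ range i, (X * q ^ k + X * q ^ (m + 1))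
  set P3 := (∏ k ∈ Ico j m, -(q ^ (k - i))) / ∏ k ∈ Ico j m, X * q ^ k * (X * q ^ j - X * q ^ (k + 1))
  have h1 : X * q ^ j - X * q ^ (m + 1) ≠ 0 := h.xsub (by omega)
  have hm : q ^ (m - i) * q ^ i = q ^ m := by rw [← pow_add]; congr 1; omega
  have hxm := h.xne m
  have e1 : -(X * q ^ (m + 1)) * (X * q ^ i + X * q ^ (m + 1)) * (X * q ^ j - X * q ^ (m + 1))
        * (2 * (X * q ^ i) * P1 * (N1 / P2)
            * (P3 * (-(q ^ (m - i)) / (X * q ^ m * (X * q ^ j - X * q ^ (m + 1))))))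
      = 2 * (X * q ^ i) * P1 * P3 * q * q ^ (m - i) * ((N1 * (X * q ^ i + X * q ^ (m + 1))) / P2) := by
    have e2 : X * q ^ (m + 1) = X * q ^ m * q := by ring
    have hq : -(q ^ (m - i)) / (X * q ^ m * (X * q ^ j - X * q ^ (m + 1)))
        * (-(X * q ^ (m + 1)) * (X * q ^ j - X * q ^ (m + 1))) = q * q ^ (m - i) := by
      rw [div_mul_eq_mul_div, div_eq_iff (mul_ne_zero hxm h1)]
      rw [e2]
      ring
    calc _ = 2 * (X * q ^ i) * P1 * P3 * (N1 / P2) * (X * q ^ i + X * q ^ (m + 1))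
          * (-(q ^ (m - i)) / (X * q ^ m * (X * q ^ j - X * q ^ (m + 1)))
        * (-(X * q ^ (m + 1)) * (X * q ^ j - X * q ^ (m + 1)))) := by ring
      _ = _ := by rw [hq]; ring
  rw [e1, ht]
  have e3 : q ^ (m + 1) = q * (q ^ (m - i) * q ^ i) := by rw [hm]; ring
  calc 2 * (X * q ^ i) * P1 * (N0 / P2) * P3 * q ^ (m + 1) * (X + X * q ^ (m + 1))
      = 2 * (X * q ^ i) * P1 * (N0 / P2) * P3 * (q * (q ^ (m - i) * q ^ i))
          * (X + X * q ^ (m + 1)) := by rw [← e3]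
    _ = _ := by ring

/-- the run ends at the right end of the smaller window -/
theorem ratA' {q X : K} (h : Gen q X) {m i : ℕ} (hi : i ≤ m) :
    cc q m X i m = X * q ^ m * (X * q ^ m + X * q ^ i) * cc q (m + 1) X i (m + 1) := by
  unfold cc
  rw [prod_Ico_succ_top hi]
  simp only [Ico_self, prod_empty, mul_one]
  have hxm := h.xne m
  have h1 := h.xadd m i
  have e1 : ∀ n : ℕ, (∏ k ∈ range i, (X * q ^ k + X * q ^ n)
        / (X * q ^ k * (X * q ^ k - X * q ^ i) * (X * q ^ k + X * q ^ n)))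
      = ∏ k ∈ range i, (X * q ^ k * (X * q ^ k - X * q ^ i))⁻¹ := by
    intro n
    apply prod_congr rfl
    intro k hk
    have := h.xadd k n
    have h2 : X * q ^ k - X * q ^ i ≠ 0 := h.xsub (mem_range.mp hk).ne
    have h3 := h.xne k
    rw [div_eq_iff (mul_ne_zero (mul_ne_zero h3 h2) this), ← mul_assoc,
      inv_mul_cancel₀ (mul_ne_zero h3 h2), one_mul]
  rw [e1 m, e1 (m + 1)]
  set P := ∏ k ∈ range i, (X * q ^ k * (X * q ^ k - X * q ^ i))⁻¹
  set Q := ∏ k ∈ Ico i m, (X * q ^ k * (X * q ^ k + X * q ^ i))⁻¹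
  have e2 : X * q ^ m * (X * q ^ m + X * q ^ i) * (X * q ^ m * (X * q ^ m + X * q ^ i))⁻¹ = 1 :=
    mul_inv_cancel₀ (mul_ne_zero hxm h1)
  linear_combination (-(2 * (X * q ^ i) * Q * P)) * e2

/-- removing the leftmost node, run inside the smaller window -/
theorem ratB {q X : K} (h : Gen q X) {m i j : ℕ} (hij : i ≤ j) (hj : j ≤ m) :
    cc q m (X * q) i j * (X + X * q ^ (m + 1))
      = X * (X - X * q ^ (i + 1)) * (X + X * q ^ (j + 1)) * cc q (m + 1) X (i + 1) (j + 1) := by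
  unfold cc
  have hs : ∀ k : ℕ, X * q * q ^ k = X * q ^ (k + 1) := fun k => by ring
  simp only [hs]
  rw [prod_range_succ' (fun k => (X * q ^ k + X * q ^ (m + 1))
        / (X * q ^ k * (X * q ^ k - X * q ^ (i + 1)) * (X * q ^ k + X * q ^ (j + 1))))]
  have e1 : ∏ k ∈ Ico (i + 1) (j + 1), (X * q ^ k * (X * q ^ k + X * q ^ (i + 1)))⁻¹
      = ∏ k ∈ Ico i j, (X * q ^ (k + 1) * (X * q ^ (k + 1) + X * q ^ (i + 1)))⁻¹ := by
    rw [← prod_Ico_add' (fun k => (X * q ^ k * (X * q ^ k + X * q ^ (i + 1)))⁻¹) i j 1]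
  have e2 : ∏ k ∈ Ico (j + 1) (m + 1), -q ^ (k - (i + 1))
        / (X * q ^ k * (X * q ^ (j + 1) - X * q ^ (k + 1)))
      = ∏ k ∈ Ico j m, -q ^ (k - i) / (X * q ^ (k + 1) * (X * q ^ (j + 1) - X * q ^ (k + 1 + 1))) := by
    rw [← prod_Ico_add' (fun k => -q ^ (k - (i + 1))
        / (X * q ^ k * (X * q ^ (j + 1) - X * q ^ (k + 1)))) j m 1]
    apply prod_congr rfl
    intro k hk
    rw [Nat.add_sub_add_right]
  rw [e1, e2]
  have h1 : X * q ^ 0 - X * q ^ (i + 1) ≠ 0 := h.xsub (by omega)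
  have h2 := h.xadd 0 (j + 1)
  have h0 := h.x0
  simp only [pow_zero, mul_one] at h1 h2 ⊢
  set P := ∏ k ∈ Ico i j, (X * q ^ (k + 1) * (X * q ^ (k + 1) + X * q ^ (i + 1)))⁻¹
  set Q := ∏ k ∈ Ico j m, -q ^ (k - i) / (X * q ^ (k + 1) * (X * q ^ (j + 1) - X * q ^ (k + 1 + 1)))
  set T := ∏ k ∈ range i, (X * q ^ (k + 1) + X * q ^ (m + 1))
        / (X * q ^ (k + 1) * (X * q ^ (k + 1) - X * q ^ (i + 1)) * (X * q ^ (k + 1) + X * q ^ (j + 1)))
  have e3 : X * (X - X * q ^ (i + 1)) * (X + X * q ^ (j + 1))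
      * ((X + X * q ^ (m + 1)) / (X * (X - X * q ^ (i + 1)) * (X + X * q ^ (j + 1))))
      = X + X * q ^ (m + 1) :=
    mul_div_cancel₀ _ (mul_ne_zero (mul_ne_zero h0 h1) h2)
  linear_combination (-(2 * (X * q ^ (i + 1)) * P * T * Q)) * e3

/-- the run starts at the left end -/
theorem ratB' {q X : K} (h : Gen q X) {m j : ℕ} (hj : j ≤ m) :
    cc q m (X * q) 0 j * q ^ (m + 1)
      = X * q * (X * q + X * q ^ (j + 1)) * cc q (m + 1) X 0 (j + 1) := by
  unfold cc
  have hs : ∀ k : ℕ, X * q * q ^ k = X * q ^ (k + 1) := fun k => by ring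
  simp only [hs, range_zero, prod_empty, mul_one, Nat.sub_zero]
  have e2 : ∏ k ∈ Ico (j + 1) (m + 1), -q ^ k
        / (X * q ^ k * (X * q ^ (j + 1) - X * q ^ (k + 1)))
      = q ^ (m - j) * ∏ k ∈ Ico j m,
          -q ^ k / (X * q ^ (k + 1) * (X * q ^ (j + 1) - X * q ^ (k + 1 + 1))) := by
    rw [← prod_Ico_add' (fun k => -q ^ k
        / (X * q ^ k * (X * q ^ (j + 1) - X * q ^ (k + 1)))) j m 1]
    have : q ^ (m - j) = ∏ k ∈ Ico j m, q := by simp
    rw [this, ← prod_mul_distrib]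
    apply prod_congr rfl
    intro k hk
    ring
  have e1 : ∀ j : ℕ, (∏ k ∈ Ico 0 (j + 1), (X * q ^ k * (X * q ^ k + X * q ^ 0))⁻¹)
      * (X * q ^ (j + 1) * (X * q ^ (j + 1) + X * q))
      = q ^ (2 * (j + 1)) * ∏ k ∈ Ico 0 j, (X * q ^ (k + 1) * (X * q ^ (k + 1) + X * q ^ (0 + 1)))⁻¹ := by
    intro j
    induction j with
    | zero =>
      have h0 := h.x0
      have h1 := h.xadd 0 0
      simp only [pow_zero, mul_one] at h1
      simp only [zero_add, Ico_self, prod_empty, mul_one]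
      rw [prod_Ico_succ_top (le_refl 0)]
      simp only [Ico_self, prod_empty, one_mul, pow_zero, mul_one]
      rw [inv_mul_eq_iff_eq_mul₀ (mul_ne_zero h0 h1)]
      ring
    | succ j ih =>
      rw [prod_Ico_succ_top (Nat.zero_le (j + 1)), prod_Ico_succ_top (Nat.zero_le j)
        (fun k => (X * q ^ (k + 1) * (X * q ^ (k + 1) + X * q ^ (0 + 1)))⁻¹)]
      have h1 := h.xne (j + 1)
      have h2 := h.xadd (j + 1) 0
      have h3 := h.xadd (j + 1) 1
      simp only [pow_zero, mul_one, pow_one, zero_add] at h2 h3 ih ⊢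
      set P := ∏ k ∈ Ico 0 (j + 1), (X * q ^ k * (X * q ^ k + X))⁻¹
      set Q := ∏ k ∈ Ico 0 j, (X * q ^ (k + 1) * (X * q ^ (k + 1) + X * q))⁻¹
      have hP : P = q ^ (2 * (j + 1)) * (Q * (X * q ^ (j + 1) * (X * q ^ (j + 1) + X * q))⁻¹) := by
        rw [← mul_assoc, eq_mul_inv_iff_mul_eq₀ (mul_ne_zero h1 h3)]; exact ih
      rw [hP]
      have e4 : (X * q ^ (j + 1) * (X * q ^ (j + 1) + X))⁻¹
          * (X * q ^ (j + 1) * (X * q ^ (j + 1) + X)) = 1 :=
        inv_mul_cancel₀ (mul_ne_zero h1 h2)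
      linear_combination (q ^ (2 * (j + 1)) * (Q * (X * q ^ (j + 1) * (X * q ^ (j + 1) + X * q))⁻¹)
        * q ^ 2) * e4
  have e1' := e1 j
  rw [e2]
  set P := ∏ k ∈ Ico 0 (j + 1), (X * q ^ k * (X * q ^ k + X * q ^ 0))⁻¹
  set Q := ∏ k ∈ Ico 0 j, (X * q ^ (k + 1) * (X * q ^ (k + 1) + X * q ^ (0 + 1)))⁻¹
  set T := ∏ k ∈ Ico j m, -q ^ k / (X * q ^ (k + 1) * (X * q ^ (j + 1) - X * q ^ (k + 1 + 1)))
  have hqn := h.q0
  have hqj : q ^ (m - j) * q ^ j = q ^ m := by rw [← pow_add]; congr 1; omega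
  have hm : q ^ (m + 1) = q ^ (m - j) * q ^ j * q := by rw [hqj]; ring
  have hx0 := h.x0
  have e5 : P * (X * q + X * q ^ (j + 1)) * (X * q ^ (j + 1))
      = q ^ (2 * (j + 1)) * Q := by rw [← e1']; ring
  have e6 : X * q ^ (j + 1) ≠ 0 := h.xne _
  have e7 : P * (X * q + X * q ^ (j + 1)) = q ^ (j + 1) * Q / X := by
    rw [eq_div_iff hx0]
    have : q ^ (j + 1) ≠ 0 := pow_ne_zero _ hqn
    apply mul_right_cancel₀ this
    calc _ = P * (X * q + X * q ^ (j + 1)) * (X * q ^ (j + 1)) := by ring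
      _ = _ := by rw [e5]; ring
  calc 2 * (X * q ^ (0 + 1)) * Q * T * q ^ (m + 1)
      = 2 * (X * q) * Q * T * (q ^ (m - j) * q ^ j * q) := by rw [← hm]; ring
    _ = 2 * X * X * q * (q ^ (m - j) * T) * (q ^ (j + 1) * Q / X) := by
        field_simp
        ring
    _ = 2 * X * X * q * (q ^ (m - j) * T) * (P * (X * q + X * q ^ (j + 1))) := by rw [e7]
    _ = _ := by ring

/-- diagonal coefficients -/
def ee (q : K) (m : ℕ) (X : K) (i : ℕ) : K := cc q m X i i / (2 * (X * q ^ i))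

theorem two_ne {q X : K} (h : Gen q X) : (2 : K) ≠ 0 := by
  intro e
  exact h.add 0 (by linear_combination e)

theorem eeA {q X : K} (h : Gen q X) {m i : ℕ} (hi : i ≤ m) :
    ee q m X i * q ^ (m + 1) * (X + X * q ^ (m + 1))
      = X * q ^ (m + 1) * ((X * q ^ (m + 1)) ^ 2 - (X * q ^ i) ^ 2) * ee q (m + 1) X i := by
  unfold ee
  have h1 := ratA h (le_refl i) hi
  have h2 : 2 * (X * q ^ i) ≠ 0 := mul_ne_zero (two_ne h) (h.xne i)
  calc _ = (cc q m X i i * q ^ (m + 1) * (X + X * q ^ (m + 1))) / (2 * (X * q ^ i)) := by ring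
    _ = _ := by rw [h1]; ring

theorem eeB {q X : K} (h : Gen q X) {m i : ℕ} (hi : i ≤ m) :
    ee q m (X * q) i * (X + X * q ^ (m + 1))
      = X * (X ^ 2 - (X * q ^ (i + 1)) ^ 2) * ee q (m + 1) X (i + 1) := by
  unfold ee
  have h1 := ratB h (le_refl i) hi
  have h2 : X * q * q ^ i = X * q ^ (i + 1) := by ring
  rw [h2]
  calc _ = (cc q m (X * q) i i * (X + X * q ^ (m + 1))) / (2 * (X * q ^ (i + 1))) := by ring
    _ = _ := by rw [h1]; ring

theorem ee_zero {q X : K} (h : Gen q X) : ee q 0 X 0 = 1 := by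
  unfold ee cc
  have h2 : 2 * (X * q ^ 0) ≠ 0 := mul_ne_zero (two_ne h) (h.xne 0)
  simp only [Ico_self, prod_empty, range_zero, mul_one]
  exact div_self h2

theorem ee_step {q X : K} (h : Gen q X) (m : ℕ) :
    (∑ i ∈ range (m + 2), ee q (m + 1) X i) * (X * q ^ (m + 1) - X) * X
      = (∑ i ∈ range (m + 1), ee q m X i) - ∑ i ∈ range (m + 1), ee q m (X * q) i := by
  have hadd : X + X * q ^ (m + 1) ≠ 0 := by simpa using h.xadd 0 (m + 1)
  have hx := h.xne (m + 1)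
  have hx0 := h.x0
  have hq := pow_ne_zero (m + 1) h.q0
  have eA : ∑ i ∈ range (m + 1), ee q m X i
      = (∑ i ∈ range (m + 2), ((X * q ^ (m + 1)) ^ 2 - (X * q ^ i) ^ 2) * ee q (m + 1) X i)
        * X / (X + X * q ^ (m + 1)) := by
    rw [sum_range_succ _ (m + 1), sub_self, zero_mul, add_zero, eq_div_iff hadd, sum_mul, sum_mul]
    apply sum_congr rfl
    intro i hi
    have := eeA h (Nat.lt_succ_iff.mp (mem_range.mp hi))
    apply mul_right_cancel₀ hq
    linear_combination this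
  have eB : ∑ i ∈ range (m + 1), ee q m (X * q) i
      = (∑ i ∈ range (m + 2), (X ^ 2 - (X * q ^ i) ^ 2) * ee q (m + 1) X i)
        * X / (X + X * q ^ (m + 1)) := by
    rw [sum_range_succ' _ (m + 1)]
    simp only [pow_zero, mul_one, sub_self, zero_mul, add_zero]
    rw [eq_div_iff hadd, sum_mul, sum_mul]
    apply sum_congr rfl
    intro i hi
    have := eeB h (Nat.lt_succ_iff.mp (mem_range.mp hi))
    linear_combination this
  rw [eA, eB, ← sub_div, ← sub_mul, ← sum_sub_distrib, eq_div_iff hadd, sum_mul, sum_mul, sum_mul,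
    sum_mul]
  apply sum_congr rfl
  intro i _
  ring

theorem ee_sum (m : ℕ) : ∀ {q X : K}, Gen q X → ∑ i ∈ range (m + 2), ee q (m + 1) X i = 0 := by
  induction m with
  | zero =>
    intro q X h
    have e := ee_step h 0
    simp only [zero_add, range_one, sum_singleton] at e
    rw [ee_zero h, ee_zero h.shift, sub_self] at e
    have h1 : X * q ^ 1 - X ≠ 0 := by simpa using h.xsub (show (1 : ℕ) ≠ 0 by omega)
    have h2 := h.x0
    rcases mul_eq_zero.mp e with e | e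
    · rcases mul_eq_zero.mp e with e | e
      · exact e
      · exact absurd e h1
    · exact absurd e h2
  | succ m ih =>
    intro q X h
    have e := ee_step h (m + 1)
    rw [ih h, ih h.shift, sub_self] at e
    have h1 : X * q ^ (m + 1 + 1) - X ≠ 0 := by
      simpa using h.xsub (show (m + 1 + 1 : ℕ) ≠ 0 by omega)
    have h2 := h.x0
    rcases mul_eq_zero.mp e with e | e
    · rcases mul_eq_zero.mp e with e | e
      · exact e
      · exact absurd e h1
    · exact absurd e h2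

end Pool.Agent.H30.WF
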