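import Mathlib

/-!
The scalar identities behind the window recursion.
-/

namespace Pool.Agent.H30.WF

variable {K : Type*} [Field K]

/-- the pairing of two root vectors -/
def Fg (q a b A0 A1 B0 B1 va vb : K) : K :=
  q * (a - b) * A0 * B0 + (a - q * b) * A1 * B0 * va + (q * a - b) * A0 * B1 * vb
    + (a - b) * A1 * B1 * va * vb

/-- `A` part of the recursion, the coefficient without the value at the new node -/
def alg (q y a b A0 A1 B0 B1 Y0 va vb : K) : K :=
  Fg q a b A0 A1 B0 B1 va vb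
    - (q * (y - b) * Y0 * B0 + (q * y - b) * Y0 * B1 * vb)
    - (q * (a - y) * A0 * Y0 + (a - q * y) * A1 * Y0 * va)

/-- `B` part of the recursion -/
def beg (q z a b A0 A1 B0 B1 Z1 va vb : K) : K :=
  Fg q a b A0 A1 B0 B1 va vb
    - ((z - q * b) * Z1 * B0 * va + (z - b) * Z1 * B1 * va * vb)
    - ((q * a - z) * A0 * Z1 * vb + (a - z) * A1 * Z1 * va * vb)

theorem glueI {q y z a b M0a M1a M0b M1b A0a A1a A0b A1b Y0 B0a B1a B0b B1b Z1 rA rB : K}
    (e00 : (a - b) * (M0a * M0b) = rA * ((a - b) * (A0a * A0b) - (y - b) * (Y0 * A0b)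
        - (a - y) * (A0a * Y0)) + rB * ((a - b) * (B0a * B0b)))
    (e10 : (a - q * b) * (M1a * M0b) = rA * (A1a * ((a - q * b) * A0b - (a - q * y) * Y0))
        + rB * (B0b * ((a - q * b) * B1a - (z - q * b) * Z1)))
    (e01 : (b - q * a) * (M1b * M0a) = rA * (A1b * ((b - q * a) * A0a - (b - q * y) * Y0))
        + rB * (B0a * ((b - q * a) * B1b - (z - q * a) * Z1)))
    (e11 : (a - b) * (M1a * M1b) = rA * ((a - b) * (A1a * A1b))
        + rB * ((a - b) * (B1a * B1b) - (z - b) * (Z1 * B1b) - (a - z) * (B1a * Z1)))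
    (va vb : K) :
    Fg q a b M0a M1a M0b M1b va vb
      = rA * alg q y a b A0a A1a A0b A1b Y0 va vb + rB * beg q z a b B0a B1a B0b B1b Z1 va vb := by
  unfold alg beg Fg
  linear_combination q * e00 + va * e10 - vb * e01 + va * vb * e11

theorem sI00 {q Q y w c d a b : K} (hq : q ≠ 0) (ha : a ≠ 0) (hb : b ≠ 0) (hy : y ≠ 0)
    (hay : a - y ≠ 0) (hby : b - y ≠ 0) (haw : a + w ≠ 0) (hbw : b + w ≠ 0)
    (hwy : w + q * y ≠ 0) (hac2 : a * q + c ≠ 0) (hbc2 : b * q + c ≠ 0) (hda2 : d - a * q ≠ 0)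
    (hdb2 : d - b * q ≠ 0) (hcy : q * y + c ≠ 0) (hdy : d - q * y ≠ 0) :
    (a - b) * ((-(Q * q) * ((q * a + w) / (q * a + c)) / (a * (d - q * a)))
        * (-(Q * q) * ((q * b + w) / (q * b + c)) / (b * (d - q * b))))
      = -(q * y) * (c + q * y) * (d - q * y) / (w + q * y) / ((a - y) * (b - y))
          * ((a - b) * ((-Q * ((q * a + w) / (q * a + c)) / (a * (d - q * a)))
              * (-Q * ((q * b + w) / (q * b + c)) / (b * (d - q * b))))
            - (y - b) * ((-Q * ((q * y + w) / (q * y + c)) / (y * (d - q * y)))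
              * (-Q * ((q * b + w) / (q * b + c)) / (b * (d - q * b))))
            - (a - y) * ((-Q * ((q * a + w) / (q * a + c)) / (a * (d - q * a)))
              * (-Q * ((q * y + w) / (q * y + c)) / (y * (d - q * y)))))
        + w * (w - c) * (w + d) / (w + q * y) / ((a + w) * (b + w))
          * ((a - b) * ((-Q * ((q * a + q * w) / (q * a + c)) / (a * (d - q * a)))
              * (-Q * ((q * b + q * w) / (q * b + c)) / (b * (d - q * b))))) := by
  field_simp
  ring

theorem sI10 {q Q y w c d a b : K} (hq : q ≠ 0) (ha : a ≠ 0) (hb : b ≠ 0) (hy : y ≠ 0)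
    (hw : w ≠ 0) (hay : a - y ≠ 0) (hby : b - y ≠ 0) (haw : a + w ≠ 0) (hbw : b + w ≠ 0)
    (hwy : w + q * y ≠ 0) (hbc : q * b + c ≠ 0) (hdb : d - q * b ≠ 0) (had : a - d ≠ 0)
    (hac' : a + c ≠ 0) (hcy : q * y + c ≠ 0) (hdy : d - q * y ≠ 0) (hwd : w + d ≠ 0)
    (hwc : w - c ≠ 0) :
    (a - q * b) * (((a - q * y) / (a - d) / (a * (a + c)))
        * (-(Q * q) * ((q * b + w) / (q * b + c)) / (b * (d - q * b))))
      = -(q * y) * (c + q * y) * (d - q * y) / (w + q * y) / ((a - y) * (b - y))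
          * (((a - y) / (a - d) / (a * (a + c)))
            * ((a - q * b) * (-Q * ((q * b + w) / (q * b + c)) / (b * (d - q * b)))
              - (a - q * y) * (-Q * ((q * y + w) / (q * y + c)) / (y * (d - q * y)))))
        + w * (w - c) * (w + d) / (w + q * y) / ((a + w) * (b + w))
          * ((-Q * ((q * b + q * w) / (q * b + c)) / (b * (d - q * b)))
            * ((a - q * b) * ((a - q * y) / (a - d) / (a * (a + c)))
              - (-w - q * b) * ((w + q * y) / (w + d) / (w * (w - c))))) := by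
  field_simp
  ring

theorem sI11 {q y w c d a b : K} (ha : a ≠ 0) (hb : b ≠ 0)
    (hw : w ≠ 0) (hay : a - y ≠ 0) (hby : b - y ≠ 0) (haw : a + w ≠ 0) (hbw : b + w ≠ 0)
    (hwy : w + q * y ≠ 0) (had : a - d ≠ 0) (hbd : b - d ≠ 0)
    (hac' : a + c ≠ 0) (hbc' : b + c ≠ 0) (hwd : w + d ≠ 0) (hwc : w - c ≠ 0) :
    (a - b) * (((a - q * y) / (a - d) / (a * (a + c))) * ((b - q * y) / (b - d) / (b * (b + c))))
      = -(q * y) * (c + q * y) * (d - q * y) / (w + q * y) / ((a - y) * (b - y))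
          * ((a - b) * (((a - y) / (a - d) / (a * (a + c)))
            * ((b - y) / (b - d) / (b * (b + c)))))
        + w * (w - c) * (w + d) / (w + q * y) / ((a + w) * (b + w))
          * ((a - b) * (((a - q * y) / (a - d) / (a * (a + c)))
              * ((b - q * y) / (b - d) / (b * (b + c))))
            - (-w - b) * (((w + q * y) / (w + d) / (w * (w - c)))
              * ((b - q * y) / (b - d) / (b * (b + c))))
            - (a - -w) * (((a - q * y) / (a - d) / (a * (a + c)))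
              * ((w + q * y) / (w + d) / (w * (w - c))))) := by
  field_simp
  ring


theorem glueII {q y a b M0a M1a M0b M1b A0a A1a A0b A1b Y0 C0a C1a C0b C1b rA s : K}
    (e00 : (a - b) * (M0a * M0b) = rA * ((a - b) * (A0a * A0b) - (y - b) * (Y0 * A0b)
        - (a - y) * (A0a * Y0)))
    (e10 : (a - q * b) * (M1a * M0b) = rA * (A1a * ((a - q * b) * A0b - (a - q * y) * Y0))
        + s * C0b)
    (e01 : (b - q * a) * (M1b * M0a) = rA * (A1b * ((b - q * a) * A0a - (b - q * y) * Y0))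
        + s * C0a)
    (e11 : (a - b) * (M1a * M1b) = rA * ((a - b) * (A1a * A1b)) - s * (C1a - C1b))
    (va vb : K) :
    Fg q a b M0a M1a M0b M1b va vb
      = rA * alg q y a b A0a A1a A0b A1b Y0 va vb
        - s * (vb * (C0a + C1a * va) - va * (C0b + C1b * vb)) := by
  unfold alg Fg
  linear_combination q * e00 + va * e10 - vb * e01 + va * vb * e11

theorem sII00 {q Q y w d a b : K} (hq : q ≠ 0) (ha : a ≠ 0) (hb : b ≠ 0) (hy : y ≠ 0)
    (hay : a - y ≠ 0) (hby : b - y ≠ 0)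
    (hwy : w + q * y ≠ 0) (hda2 : d - a * q ≠ 0)
    (hdb2 : d - b * q ≠ 0) (hdy : d - q * y ≠ 0) :
    (a - b) * ((-(Q * q) * 1 / (a * (d - q * a))) * (-(Q * q) * 1 / (b * (d - q * b))))
      = -(q * y) * (w + q * y) * (d - q * y) / (w + q * y) / ((a - y) * (b - y))
          * ((a - b) * ((-Q * 1 / (a * (d - q * a))) * (-Q * 1 / (b * (d - q * b))))
            - (y - b) * ((-Q * 1 / (y * (d - q * y))) * (-Q * 1 / (b * (d - q * b))))
            - (a - y) * ((-Q * 1 / (a * (d - q * a))) * (-Q * 1 / (y * (d - q * y))))) := by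
  field_simp
  ring

theorem sII10 {q Q y w d a b : K} (hq : q ≠ 0) (ha : a ≠ 0) (hb : b ≠ 0) (hy : y ≠ 0)
    (hay : a - y ≠ 0) (hby : b - y ≠ 0) (haw : a + w ≠ 0) (hbw : b + w ≠ 0)
    (hwy : w + q * y ≠ 0) (hdb : d - q * b ≠ 0) (had : a - d ≠ 0) (hdy : d - q * y ≠ 0) :
    (a - q * b) * (((a - q * y) / (a - d) / (a * (a + w))) * (-(Q * q) * 1 / (b * (d - q * b))))
      = -(q * y) * (w + q * y) * (d - q * y) / (w + q * y) / ((a - y) * (b - y))
          * (((a - y) / (a - d) / (a * (a + w)))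
            * ((a - q * b) * (-Q * 1 / (b * (d - q * b)))
              - (a - q * y) * (-Q * 1 / (y * (d - q * y)))))
        + 1 / ((a + w) * (b + w)) * (-Q * (q * w + q * b) / (b * (d - q * b))) := by
  field_simp
  ring

theorem sII11 {q y w d a b : K} (ha : a ≠ 0) (hb : b ≠ 0)
    (hay : a - y ≠ 0) (hby : b - y ≠ 0) (haw : a + w ≠ 0) (hbw : b + w ≠ 0)
    (hwy : w + q * y ≠ 0) (had : a - d ≠ 0) (hbd : b - d ≠ 0) :
    (a - b) * (((a - q * y) / (a - d) / (a * (a + w))) * ((b - q * y) / (b - d) / (b * (b + w))))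
      = -(q * y) * (w + q * y) * (d - q * y) / (w + q * y) / ((a - y) * (b - y))
          * ((a - b) * (((a - y) / (a - d) / (a * (a + w)))
            * ((b - y) / (b - d) / (b * (b + w)))))
        - 1 / ((a + w) * (b + w)) * ((a - q * y) / (a - d) / a - (b - q * y) / (b - d) / b) := by
  field_simp
  ring

theorem glueIII {q z a b M0a M1a M0b M1b P0a P1a P0b P1b B0a B1a B0b B1b Z1 t rB : K}
    (e00 : q * ((a - b) * (M0a * M0b)) = t * (P0a - P0b) + rB * (q * ((a - b) * (B0a * B0b))))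
    (e10 : (a - q * b) * (M1a * M0b) = t * P1a
        + rB * (B0b * ((a - q * b) * B1a - (z - q * b) * Z1)))
    (e01 : (b - q * a) * (M1b * M0a) = t * P1b
        + rB * (B0a * ((b - q * a) * B1b - (z - q * a) * Z1)))
    (e11 : (a - b) * (M1a * M1b) = rB * ((a - b) * (B1a * B1b) - (z - b) * (Z1 * B1b)
        - (a - z) * (B1a * Z1)))
    (va vb : K) :
    Fg q a b M0a M1a M0b M1b va vb
      = t * ((P0a + P1a * va) - (P0b + P1b * vb)) + rB * beg q z a b B0a B1a B0b B1b Z1 va vb := by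
  unfold beg Fg
  linear_combination e00 + va * e10 - vb * e01 + va * vb * e11

theorem sIII00 {q Q y w c a b : K} (hq : q ≠ 0) (ha : a ≠ 0) (hb : b ≠ 0)
    (hay : a - y ≠ 0) (hby : b - y ≠ 0) (haw : a + w ≠ 0) (hbw : b + w ≠ 0)
    (hwy : w + q * y ≠ 0) (hac : q * a + c ≠ 0) (hbc : q * b + c ≠ 0) (hac2 : a * q + c ≠ 0)
    (hbc2 : b * q + c ≠ 0) (hya : y - a ≠ 0) (hyb : y - b ≠ 0) :
    q * ((a - b) * ((-(Q * q) * ((q * a + w) / (q * a + c)) / (a * (q * y - q * a)))
        * (-(Q * q) * ((q * b + w) / (q * b + c)) / (b * (q * y - q * b)))))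
      = Q * q / ((a - y) * (b - y))
          * (-Q * ((q * a + w) / (q * a + c)) / a - -Q * ((q * b + w) / (q * b + c)) / b)
        + w * (w - c) * (w + q * y) / (w + q * y) / ((a + w) * (b + w))
          * (q * ((a - b) * ((-Q * ((q * a + q * w) / (q * a + c)) / (a * (q * y - q * a)))
              * (-Q * ((q * b + q * w) / (q * b + c)) / (b * (q * y - q * b)))))) := by
  have e1 : q * y - q * a = -(q * (a - y)) := by ring
  have e2 : q * y - q * b = -(q * (b - y)) := by ring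
  rw [e1, e2]
  field_simp
  ring

theorem sIII10 {q Q y w c a b : K} (hq : q ≠ 0) (ha : a ≠ 0) (hb : b ≠ 0)
    (hw : w ≠ 0) (hay : a - y ≠ 0) (hby : b - y ≠ 0) (haw : a + w ≠ 0) (hbw : b + w ≠ 0)
    (hwy : w + q * y ≠ 0) (hbc : q * b + c ≠ 0) (hbc2 : b * q + c ≠ 0)
    (hac' : a + c ≠ 0) (hwc : w - c ≠ 0) :
    (a - q * b) * ((1 / (a * (a + c)))
        * (-(Q * q) * ((q * b + w) / (q * b + c)) / (b * (q * y - q * b))))
      = Q * q / ((a - y) * (b - y)) * (-((a - y) / (a * (a + c))))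
        + w * (w - c) * (w + q * y) / (w + q * y) / ((a + w) * (b + w))
          * ((-Q * ((q * b + q * w) / (q * b + c)) / (b * (q * y - q * b)))
            * ((a - q * b) * (1 / (a * (a + c)))
              - (-w - q * b) * (1 / (w * (w - c))))) := by
  have e2 : q * y - q * b = -(q * (b - y)) := by ring
  rw [e2]
  field_simp
  ring

theorem sIII11 {q y w c a b : K} (ha : a ≠ 0) (hb : b ≠ 0)
    (hw : w ≠ 0) (haw : a + w ≠ 0) (hbw : b + w ≠ 0)
    (hwy : w + q * y ≠ 0)
    (hac' : a + c ≠ 0) (hbc' : b + c ≠ 0) (hwc : w - c ≠ 0) :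
    (a - b) * ((1 / (a * (a + c))) * (1 / (b * (b + c))))
      = w * (w - c) * (w + q * y) / (w + q * y) / ((a + w) * (b + w))
          * ((a - b) * ((1 / (a * (a + c))) * (1 / (b * (b + c))))
            - (-w - b) * ((1 / (w * (w - c))) * (1 / (b * (b + c))))
            - (a - -w) * ((1 / (a * (a + c))) * (1 / (w * (w - c))))) := by
  field_simp
  ring

theorem glueIV {q a b M0a M1a M0b M1b P0a P1a P0b P1b C0a C1a C0b C1b t s : K}
    (e00 : q * ((a - b) * (M0a * M0b)) = t * (P0a - P0b))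
    (e10 : (a - q * b) * (M1a * M0b) = t * P1a + s * C0b)
    (e01 : (b - q * a) * (M1b * M0a) = t * P1b + s * C0a)
    (e11 : (a - b) * (M1a * M1b) = -(s * (C1a - C1b)))
    (va vb : K) :
    Fg q a b M0a M1a M0b M1b va vb
      = t * ((P0a + P1a * va) - (P0b + P1b * vb))
        - s * (vb * (C0a + C1a * va) - va * (C0b + C1b * vb)) := by
  unfold Fg
  linear_combination e00 + va * e10 - vb * e01 + va * vb * e11

theorem sIV00 {q Q y a b : K} (hq : q ≠ 0) (ha : a ≠ 0) (hb : b ≠ 0)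
    (hay : a - y ≠ 0) (hby : b - y ≠ 0) :
    q * ((a - b) * ((-(Q * q) * 1 / (a * (q * y - q * a)))
        * (-(Q * q) * 1 / (b * (q * y - q * b)))))
      = Q * q / ((a - y) * (b - y)) * (-Q * 1 / a - -Q * 1 / b) := by
  have e1 : q * y - q * a = -(q * (a - y)) := by ring
  have e2 : q * y - q * b = -(q * (b - y)) := by ring
  rw [e1, e2]
  field_simp
  ring

theorem sIV10 {q Q y w a b : K} (hq : q ≠ 0) (ha : a ≠ 0) (hb : b ≠ 0)
    (hay : a - y ≠ 0) (hby : b - y ≠ 0) (haw : a + w ≠ 0) (hbw : b + w ≠ 0) :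
    (a - q * b) * ((1 / (a * (a + w))) * (-(Q * q) * 1 / (b * (q * y - q * b))))
      = Q * q / ((a - y) * (b - y)) * (-((a - y) / (a * (a + w))))
        + 1 / ((a + w) * (b + w)) * (-Q * (q * w + q * b) / (b * (q * y - q * b))) := by
  have e2 : q * y - q * b = -(q * (b - y)) := by ring
  rw [e2]
  field_simp
  ring

theorem sIV11 {w a b : K} (ha : a ≠ 0) (hb : b ≠ 0) (haw : a + w ≠ 0) (hbw : b + w ≠ 0) :
    (a - b) * ((1 / (a * (a + w))) * (1 / (b * (b + w))))
      = -(1 / ((a + w) * (b + w)) * (1 / a - 1 / b)) := by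
  field_simp
  ring

end Pool.Agent.H30.WF
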