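import Mathlib

/-!
The scalar identities for the part without a run.
-/

namespace Pool.Agent.H30.WF

variable {K : Type*} [Field K]

/-- the pairing for the part without a run -/
def Kg (a b A0 A1 B0 B1 va vb : K) : K :=
  (a - b) / (a + b) * (A1 * B1 * va * vb - A0 * B0) + A1 * B0 * va - A0 * B1 * vb

/-- `A` part -/
def alk (y a b A0 A1 B0 B1 Y0 va vb : K) : K :=
  Kg a b A0 A1 B0 B1 va vb
    - (-((y - b) / (y + b)) * Y0 * B0 - Y0 * B1 * vb)
    - (-((a - y) / (a + y)) * A0 * Y0 + A1 * Y0 * va)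

/-- `B` part -/
def bek (z a b A0 A1 B0 B1 Z1 va vb : K) : K :=
  Kg a b A0 A1 B0 B1 va vb
    - va * ((z - b) / (z + b) * Z1 * B1 * vb + Z1 * B0)
    - vb * ((a - z) / (a + z) * A1 * Z1 * va - A0 * Z1)

/-- the defect, the same for every site -/
def Lam (q Q y w a b va vb : K) : K :=
  Q ^ 2 * q / (a + b) * ((q * a + w) / (a * (y + a)) - (q * b + w) / (b * (y + b)))
    - Q * q / (a * b) * va + Q * q / (a * b) * vb
    + 1 / (a + b) * ((a - q * y) / (a * (w - a)) - (b - q * y) / (b * (w - b))) * (va * vb)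

theorem glueK {q Q y w z a b M0a M1a M0b M1b A0a A1a A0b A1b Y0 B0a B1a B0b B1b Z1 rA rB : K}
    (e00 : -((a - b) / (a + b)) * (M0a * M0b)
      = rA * (-((a - b) / (a + b)) * (A0a * A0b) + (y - b) / (y + b) * (Y0 * A0b)
          + (a - y) / (a + y) * (A0a * Y0)) + rB * (-((a - b) / (a + b)) * (B0a * B0b))
        + Q ^ 2 * q / (a + b) * ((q * a + w) / (a * (y + a)) - (q * b + w) / (b * (y + b))))
    (e10 : M1a * M0b = rA * (A1a * (A0b - Y0)) + rB * (B0b * (B1a - Z1)) - Q * q / (a * b))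
    (e01 : M1b * M0a = rA * (A1b * (A0a - Y0)) + rB * (B0a * (B1b - Z1)) - Q * q / (b * a))
    (e11 : (a - b) / (a + b) * (M1a * M1b) = rA * ((a - b) / (a + b) * (A1a * A1b))
        + rB * ((a - b) / (a + b) * (B1a * B1b) - (z - b) / (z + b) * (Z1 * B1b)
          - (a - z) / (a + z) * (B1a * Z1))
        + 1 / (a + b) * ((a - q * y) / (a * (w - a)) - (b - q * y) / (b * (w - b))))
    (va vb : K) :
    Kg a b M0a M1a M0b M1b va vb
      = rA * alk y a b A0a A1a A0b A1b Y0 va vb + rB * bek z a b B0a B1a B0b B1b Z1 va vb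
        + Lam q Q y w a b va vb := by
  unfold alk bek Kg Lam
  rw [mul_comm b a] at e01
  linear_combination e00 + va * e10 - vb * e01 + va * vb * e11

theorem glueKA {q Q y w a b M0a M1a M0b M1b A0a A1a A0b A1b Y0 rA : K}
    (e00 : -((a - b) / (a + b)) * (M0a * M0b)
      = rA * (-((a - b) / (a + b)) * (A0a * A0b) + (y - b) / (y + b) * (Y0 * A0b)
          + (a - y) / (a + y) * (A0a * Y0))
        + Q ^ 2 * q / (a + b) * ((q * a + w) / (a * (y + a)) - (q * b + w) / (b * (y + b))))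
    (e10 : M1a * M0b = rA * (A1a * (A0b - Y0)) - Q * q / (a * b))
    (e01 : M1b * M0a = rA * (A1b * (A0a - Y0)) - Q * q / (b * a))
    (e11 : (a - b) / (a + b) * (M1a * M1b) = rA * ((a - b) / (a + b) * (A1a * A1b))
        + 1 / (a + b) * ((a - q * y) / (a * (w - a)) - (b - q * y) / (b * (w - b))))
    (va vb : K) :
    Kg a b M0a M1a M0b M1b va vb
      = rA * alk y a b A0a A1a A0b A1b Y0 va vb + Lam q Q y w a b va vb := by
  unfold alk Kg Lam
  rw [mul_comm b a] at e01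
  linear_combination e00 + va * e10 - vb * e01 + va * vb * e11

theorem glueKB {q Q y w z a b M0a M1a M0b M1b B0a B1a B0b B1b Z1 rB : K}
    (e00 : -((a - b) / (a + b)) * (M0a * M0b)
      = rB * (-((a - b) / (a + b)) * (B0a * B0b))
        + Q ^ 2 * q / (a + b) * ((q * a + w) / (a * (y + a)) - (q * b + w) / (b * (y + b))))
    (e10 : M1a * M0b = rB * (B0b * (B1a - Z1)) - Q * q / (a * b))
    (e01 : M1b * M0a = rB * (B0a * (B1b - Z1)) - Q * q / (b * a))
    (e11 : (a - b) / (a + b) * (M1a * M1b) =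
        rB * ((a - b) / (a + b) * (B1a * B1b) - (z - b) / (z + b) * (Z1 * B1b)
          - (a - z) / (a + z) * (B1a * Z1))
        + 1 / (a + b) * ((a - q * y) / (a * (w - a)) - (b - q * y) / (b * (w - b))))
    (va vb : K) :
    Kg a b M0a M1a M0b M1b va vb
      = rB * bek z a b B0a B1a B0b B1b Z1 va vb + Lam q Q y w a b va vb := by
  unfold bek Kg Lam
  rw [mul_comm b a] at e01
  linear_combination e00 + va * e10 - vb * e01 + va * vb * e11

/-! generic site -/

theorem kI00 {q Q y w c a b : K} (ha : a ≠ 0) (hb : b ≠ 0) (hy : y ≠ 0)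
    (hab : a + b ≠ 0) (hay : a - y ≠ 0) (hby : b - y ≠ 0) (haw : a + w ≠ 0) (hbw : b + w ≠ 0)
    (hay' : a + y ≠ 0) (hyb' : y + b ≠ 0) (hya' : y + a ≠ 0)
    (hwy : w + q * y ≠ 0) (hac : q * a + c ≠ 0) (hbc : q * b + c ≠ 0) (hac2 : a * q + c ≠ 0)
    (hbc2 : b * q + c ≠ 0) (hcy : q * y + c ≠ 0) :
    -((a - b) / (a + b)) * ((-(Q * q) * ((q * a + w) / (q * a + c)) / a)
        * (-(Q * q) * ((q * b + w) / (q * b + c)) / b))
      = q * y * ((q * y) ^ 2 - c ^ 2) / (w + q * y) / ((a - y) * (b - y))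
          * (-((a - b) / (a + b)) * ((-Q * ((q * a + w) / (q * a + c)) / a)
              * (-Q * ((q * b + w) / (q * b + c)) / b))
            + (y - b) / (y + b) * ((-Q * ((q * y + w) / (q * y + c)) / y)
              * (-Q * ((q * b + w) / (q * b + c)) / b))
            + (a - y) / (a + y) * ((-Q * ((q * a + w) / (q * a + c)) / a)
              * (-Q * ((q * y + w) / (q * y + c)) / y)))
        + w * (w ^ 2 - c ^ 2) / (w + q * y) / ((a + w) * (b + w))
          * (-((a - b) / (a + b)) * ((-Q * ((q * a + q * w) / (q * a + c)) / a)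
              * (-Q * ((q * b + q * w) / (q * b + c)) / b)))
        + Q ^ 2 * q / (a + b) * ((q * a + w) / (a * (y + a)) - (q * b + w) / (b * (y + b))) := by
  have e1 : a + y = y + a := add_comm _ _
  rw [e1]
  field_simp
  ring

theorem kI10 {q Q y w c a b : K} (ha : a ≠ 0) (hb : b ≠ 0) (hy : y ≠ 0) (hw : w ≠ 0)
    (hay : a - y ≠ 0) (hby : b - y ≠ 0) (haw : a + w ≠ 0) (hbw : b + w ≠ 0)
    (hwy : w + q * y ≠ 0) (hac : a - c ≠ 0) (hbc : q * b + c ≠ 0)
    (hbc2 : b * q + c ≠ 0) (hcy : q * y + c ≠ 0) (hwc : w + c ≠ 0) :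
    ((a - q * y) / (a - c) / a) * (-(Q * q) * ((q * b + w) / (q * b + c)) / b)
      = q * y * ((q * y) ^ 2 - c ^ 2) / (w + q * y) / ((a - y) * (b - y))
          * (((a - y) / (a - c) / a) * ((-Q * ((q * b + w) / (q * b + c)) / b)
            - (-Q * ((q * y + w) / (q * y + c)) / y)))
        + w * (w ^ 2 - c ^ 2) / (w + q * y) / ((a + w) * (b + w))
          * ((-Q * ((q * b + q * w) / (q * b + c)) / b)
            * ((a - q * y) / (a - c) / a - -((w + q * y) / (w + c) / w)))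
        - Q * q / (a * b) := by
  field_simp
  ring

theorem kI11 {q y w c a b : K} (ha : a ≠ 0) (hb : b ≠ 0) (hw : w ≠ 0)
    (hab : a + b ≠ 0) (hay : a - y ≠ 0) (hby : b - y ≠ 0) (haw : a + w ≠ 0) (hbw : b + w ≠ 0)
    (hwy : w + q * y ≠ 0) (hac : a - c ≠ 0) (hbc : b - c ≠ 0) (hwc : w + c ≠ 0)
    (hwa : w - a ≠ 0) (hwb : w - b ≠ 0) (hzb : -w + b ≠ 0) (haz : a + -w ≠ 0) :
    (a - b) / (a + b) * (((a - q * y) / (a - c) / a) * ((b - q * y) / (b - c) / b))
      = q * y * ((q * y) ^ 2 - c ^ 2) / (w + q * y) / ((a - y) * (b - y))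
          * ((a - b) / (a + b) * (((a - y) / (a - c) / a) * ((b - y) / (b - c) / b)))
        + w * (w ^ 2 - c ^ 2) / (w + q * y) / ((a + w) * (b + w))
          * ((a - b) / (a + b) * (((a - q * y) / (a - c) / a) * ((b - q * y) / (b - c) / b))
            - (-w - b) / (-w + b) * (-((w + q * y) / (w + c) / w) * ((b - q * y) / (b - c) / b))
            - (a - -w) / (a + -w) * (((a - q * y) / (a - c) / a) * -((w + q * y) / (w + c) / w)))
        + 1 / (a + b) * ((a - q * y) / (a * (w - a)) - (b - q * y) / (b * (w - b))) := by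
  have e1 : -w + b = -(w - b) := by ring
  have e2 : a + -w = -(w - a) := by ring
  rw [e1, e2]
  field_simp
  ring

/-! the leftmost site -/

theorem kII00 {q Q y w a b : K} (ha : a ≠ 0) (hb : b ≠ 0) (hy : y ≠ 0)
    (hab : a + b ≠ 0) (hay : a - y ≠ 0) (hby : b - y ≠ 0)
    (hyb' : y + b ≠ 0) (hya' : y + a ≠ 0) (hwy : w + q * y ≠ 0) :
    -((a - b) / (a + b)) * ((-(Q * q) * 1 / a) * (-(Q * q) * 1 / b))
      = q * y * ((q * y) ^ 2 - w ^ 2) / (w + q * y) / ((a - y) * (b - y))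
          * (-((a - b) / (a + b)) * ((-Q * 1 / a) * (-Q * 1 / b))
            + (y - b) / (y + b) * ((-Q * 1 / y) * (-Q * 1 / b))
            + (a - y) / (a + y) * ((-Q * 1 / a) * (-Q * 1 / y)))
        + Q ^ 2 * q / (a + b) * ((q * a + w) / (a * (y + a)) - (q * b + w) / (b * (y + b))) := by
  have e1 : a + y = y + a := add_comm _ _
  rw [e1]
  field_simp
  ring

theorem kII10 {q Q y w a b : K} (ha : a ≠ 0) (hb : b ≠ 0) (hy : y ≠ 0)
    (hay : a - y ≠ 0) (hby : b - y ≠ 0) (hwy : w + q * y ≠ 0) (hac : a - w ≠ 0) :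
    ((a - q * y) / (a - w) / a) * (-(Q * q) * 1 / b)
      = q * y * ((q * y) ^ 2 - w ^ 2) / (w + q * y) / ((a - y) * (b - y))
          * (((a - y) / (a - w) / a) * ((-Q * 1 / b) - (-Q * 1 / y)))
        - Q * q / (a * b) := by
  field_simp
  ring

theorem kII11 {q y w a b : K} (ha : a ≠ 0) (hb : b ≠ 0)
    (hab : a + b ≠ 0) (hay : a - y ≠ 0) (hby : b - y ≠ 0)
    (hwy : w + q * y ≠ 0) (hac : a - w ≠ 0) (hbc : b - w ≠ 0) :
    (a - b) / (a + b) * (((a - q * y) / (a - w) / a) * ((b - q * y) / (b - w) / b))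
      = q * y * ((q * y) ^ 2 - w ^ 2) / (w + q * y) / ((a - y) * (b - y))
          * ((a - b) / (a + b) * (((a - y) / (a - w) / a) * ((b - y) / (b - w) / b)))
        + 1 / (a + b) * ((a - q * y) / (a * (w - a)) - (b - q * y) / (b * (w - b))) := by
  have e1 : w - b = -(b - w) := by ring
  have e2 : w - a = -(a - w) := by ring
  rw [e1, e2]
  field_simp
  ring

/-! the rightmost site -/

theorem kIII00 {q Q y w a b : K} (hq : q ≠ 0) (ha : a ≠ 0) (hb : b ≠ 0)
    (hab : a + b ≠ 0) (haw : a + w ≠ 0) (hbw : b + w ≠ 0)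
    (hyb' : y + b ≠ 0) (hya' : y + a ≠ 0) (hwy : w + q * y ≠ 0) :
    -((a - b) / (a + b)) * ((-(Q * q) * ((q * a + w) / (q * a + q * y)) / a)
        * (-(Q * q) * ((q * b + w) / (q * b + q * y)) / b))
      = w * (w ^ 2 - (q * y) ^ 2) / (w + q * y) / ((a + w) * (b + w))
          * (-((a - b) / (a + b)) * ((-Q * ((q * a + q * w) / (q * a + q * y)) / a)
              * (-Q * ((q * b + q * w) / (q * b + q * y)) / b)))
        + Q ^ 2 * q / (a + b) * ((q * a + w) / (a * (y + a)) - (q * b + w) / (b * (y + b))) := by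
  have e1 : q * a + q * y = q * (y + a) := by ring
  have e2 : q * b + q * y = q * (y + b) := by ring
  rw [e1, e2]
  field_simp
  ring

theorem kIII10 {q Q y w a b : K} (hq : q ≠ 0) (ha : a ≠ 0) (hb : b ≠ 0) (hw : w ≠ 0)
    (haw : a + w ≠ 0) (hbw : b + w ≠ 0) (hyb' : y + b ≠ 0)
    (hwy : w + q * y ≠ 0) :
    (1 / a) * (-(Q * q) * ((q * b + w) / (q * b + q * y)) / b)
      = w * (w ^ 2 - (q * y) ^ 2) / (w + q * y) / ((a + w) * (b + w))
          * ((-Q * ((q * b + q * w) / (q * b + q * y)) / b) * (1 / a - -(1 / w)))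
        - Q * q / (a * b) := by
  have e2 : q * b + q * y = q * (y + b) := by ring
  rw [e2]
  field_simp
  ring

theorem kIII11 {q y w a b : K} (ha : a ≠ 0) (hb : b ≠ 0) (hw : w ≠ 0)
    (hab : a + b ≠ 0) (haw : a + w ≠ 0) (hbw : b + w ≠ 0)
    (hwy : w + q * y ≠ 0) (hwa : w - a ≠ 0) (hwb : w - b ≠ 0) :
    (a - b) / (a + b) * ((1 / a) * (1 / b))
      = w * (w ^ 2 - (q * y) ^ 2) / (w + q * y) / ((a + w) * (b + w))
          * ((a - b) / (a + b) * ((1 / a) * (1 / b))
            - (-w - b) / (-w + b) * (-(1 / w) * (1 / b))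
            - (a - -w) / (a + -w) * ((1 / a) * -(1 / w)))
        + 1 / (a + b) * ((a - q * y) / (a * (w - a)) - (b - q * y) / (b * (w - b))) := by
  have e1 : -w + b = -(w - b) := by ring
  have e2 : a + -w = -(w - a) := by ring
  rw [e1, e2]
  field_simp
  ring

end Pool.Agent.H30.WF
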