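import Pool.Agent.H30.WF.Ratio
import Pool.Agent.H30.WF.Scal
import Pool.Agent.H30.WF.ScalK

/-!
Termwise form of the window recursion for the closed form.
-/

namespace Pool.Agent.H30.WF

open Finset

variable {K : Type*} [Field K]

/-- left factor of a run -/
def Lf (q X : K) (i : ℕ) (b : K) : K := if i = 0 then 1 else (q * b + X) / (q * b + X * q ^ i)

/-- right factor of a run -/
def Rf (q : K) (m : ℕ) (X : K) (j : ℕ) (b : K) : K :=
  if j = m then 1 else (b - X * q ^ m) / (b - X * q ^ j)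

def f0 (q : K) (m : ℕ) (X : K) (i j : ℕ) (b : K) : K :=
  -(q ^ m) * Lf q X i b / (b * (X * q ^ j - q * b))

def f1 (q : K) (m : ℕ) (X : K) (i j : ℕ) (b : K) : K := Rf q m X j b / (b * (b + X * q ^ i))

def ka (q : K) (m : ℕ) (X : K) (i : ℕ) (b : K) : K := -(q ^ m) * Lf q X i b / b

def kb (q : K) (m : ℕ) (X : K) (i : ℕ) (b : K) : K := Rf q m X i b / b

def Fw (q : K) (m : ℕ) (X : K) (i j : ℕ) (a va b vb : K) : K :=
  Fg q a b (f0 q m X i j a) (f1 q m X i j a) (f0 q m X i j b) (f1 q m X i j b) va vb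

def Kw (q : K) (m : ℕ) (X : K) (i : ℕ) (a va b vb : K) : K :=
  Kg a b (ka q m X i a) (kb q m X i a) (ka q m X i b) (kb q m X i b) va vb

def alw (q : K) (m : ℕ) (X : K) (i j : ℕ) (a va b vb : K) : K :=
  alg q (X * q ^ m) a b (f0 q m X i j a) (f1 q m X i j a) (f0 q m X i j b) (f1 q m X i j b)
    (f0 q m X i j (X * q ^ m)) va vb

def bew (q : K) (m : ℕ) (X : K) (i j : ℕ) (a va b vb : K) : K :=
  beg q (-X) a b (f0 q m (X * q) i j a) (f1 q m (X * q) i j a) (f0 q m (X * q) i j b)
    (f1 q m (X * q) i j b) (f1 q m (X * q) i j (-X)) va vb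

def akw (q : K) (m : ℕ) (X : K) (i : ℕ) (a va b vb : K) : K :=
  alk (X * q ^ m) a b (ka q m X i a) (kb q m X i a) (ka q m X i b) (kb q m X i b)
    (ka q m X i (X * q ^ m)) va vb

def bkw (q : K) (m : ℕ) (X : K) (i : ℕ) (a va b vb : K) : K :=
  bek (-X) a b (ka q m (X * q) i a) (kb q m (X * q) i a) (ka q m (X * q) i b)
    (kb q m (X * q) i b) (kb q m (X * q) i (-X)) va vb

def ps (q : K) (m : ℕ) (X : K) (i : ℕ) (a va : K) : K :=
  -(q ^ m) * Lf q X i a / a + -((a - X * q ^ m) / (a * (a + X * q ^ i))) * va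

def ch (q : K) (m : ℕ) (X : K) (j : ℕ) (a va : K) : K :=
  -(q ^ m) * (q * X + q * a) / (a * (X * q ^ (j + 1) - q * a)) + Rf q m (X * q) j a / a * va

/-- coefficient of the run `[i, m+1)` coming from the `A` part -/
def Sa (q : K) (m : ℕ) (X : K) (i : ℕ) (a va b vb : K) : K :=
  cc q (m + 1) X i (m + 1) * (q ^ (m + 1) / ((a - X * q ^ m) * (b - X * q ^ m)))
    * (ps q m X i a va - ps q m X i b vb)

/-- coefficient of the run `[0, j+1)` coming from the `B` part -/
def Tb (q : K) (m : ℕ) (X : K) (j : ℕ) (a va b vb : K) : K :=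
  -(cc q (m + 1) X 0 (j + 1) * (1 / ((a + X) * (b + X)))
    * (vb * ch q m X j a va - va * ch q m X j b vb))

/-- admissible roots for the window of length `m` -/
structure Adm (q : K) (m : ℕ) (X b : K) : Prop where
  ne0 : b ≠ 0
  pos : ∀ i : ℕ, i < m → b ≠ X * q ^ i
  neg : ∀ i : ℕ, i < m → b ≠ -(X * q ^ i)

theorem Adm.sub {q : K} {m : ℕ} {X b : K} (h : Adm q (m + 1) X b) {k : ℕ} (hk : k ≤ m) :
    b - X * q ^ k ≠ 0 := sub_ne_zero.mpr (h.pos k (by omega))

theorem Adm.add {q : K} {m : ℕ} {X b : K} (h : Adm q (m + 1) X b) {k : ℕ} (hk : k ≤ m) :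
    b + X * q ^ k ≠ 0 := fun e => h.neg k (by omega) (by linear_combination e)

theorem Adm.qadd {q : K} {m : ℕ} {X b : K} (h : Adm q (m + 1) X b) (hq : q ≠ 0) {k : ℕ}
    (hk : k ≤ m) : q * b + X * q ^ (k + 1) ≠ 0 := by
  have e : q * b + X * q ^ (k + 1) = q * (b + X * q ^ k) := by ring
  rw [e]; exact mul_ne_zero hq (h.add hk)

theorem Adm.qsub {q : K} {m : ℕ} {X b : K} (h : Adm q (m + 1) X b) (hq : q ≠ 0) {k : ℕ}
    (hk : k ≤ m) : X * q ^ (k + 1) - q * b ≠ 0 := by
  have e : X * q ^ (k + 1) - q * b = -(q * (b - X * q ^ k)) := by ring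
  rw [e]; exact neg_ne_zero.mpr (mul_ne_zero hq (h.sub hk))

theorem Adm.sub0 {q : K} {m : ℕ} {X b : K} (h : Adm q (m + 1) X b) : b - X ≠ 0 := by
  simpa using h.sub (Nat.zero_le m)

theorem Adm.add0 {q : K} {m : ℕ} {X b : K} (h : Adm q (m + 1) X b) : b + X ≠ 0 := by
  simpa using h.add (Nat.zero_le m)

theorem Lf_zero (q X b : K) : Lf q X 0 b = 1 := by simp [Lf]

theorem Lf_succ (q X : K) (i : ℕ) (b : K) :
    Lf q X (i + 1) b = (q * b + X) / (q * b + X * q ^ (i + 1)) := by simp [Lf]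

theorem LfB {q X : K} (i : ℕ) {b : K} (h : q * b + X * q ^ 1 ≠ 0) :
    Lf q (X * q) i b = (q * b + q * X) / (q * b + X * q ^ (i + 1)) := by
  unfold Lf
  split_ifs with hi
  · subst hi
    rw [zero_add, pow_one] at *
    rw [eq_comm, div_eq_one_iff_eq h]
    ring
  · have e : X * q * q ^ i = X * q ^ (i + 1) := by ring
    rw [e, mul_comm X q]

theorem RfA {q X : K} {m : ℕ} (j : ℕ) {b : K} (h : b - X * q ^ m ≠ 0) :
    Rf q m X j b = (b - X * q ^ m) / (b - X * q ^ j) := by
  unfold Rf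
  split_ifs with hj
  · subst hj; rw [div_self h]
  · rfl

theorem RfM {q X : K} {m j : ℕ} (hj : j ≤ m) (b : K) :
    Rf q (m + 1) X j b = (b - q * (X * q ^ m)) / (b - X * q ^ j) := by
  unfold Rf
  rw [if_neg (by omega)]
  have e : X * q ^ (m + 1) = q * (X * q ^ m) := by ring
  rw [e]

theorem RfT (q X : K) (m : ℕ) (b : K) : Rf q m X m b = 1 := by simp [Rf]

theorem RfB {q X : K} {m j : ℕ} (hj : j < m) (b : K) :
    Rf q m (X * q) j b = (b - q * (X * q ^ m)) / (b - X * q ^ (j + 1)) := by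
  unfold Rf
  rw [if_neg (by omega)]
  have e : X * q * q ^ m = q * (X * q ^ m) := by ring
  have e2 : X * q * q ^ j = X * q ^ (j + 1) := by ring
  rw [e, e2]

theorem termI {q X : K} (h : Gen q X) {m i j : ℕ} (hij : i < j) (hj : j + 1 ≤ m) {a b : K}
    (ha : Adm q (m + 1) X a) (hb : Adm q (m + 1) X b) (va vb : K) :
    cc q (m + 1) X (i + 1) (j + 1) * Fw q (m + 1) X (i + 1) (j + 1) a va b vb
      = cc q m X (i + 1) (j + 1) * (q ^ (m + 1) / ((a - X * q ^ m) * (b - X * q ^ m))
          * alw q m X (i + 1) (j + 1) a va b vb)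
        + cc q m (X * q) i j * (1 / ((a + X) * (b + X)) * bew q m X i j a va b vb) := by
  have hq := h.q0
  have rA := ratA h (show i + 1 ≤ j + 1 by omega) hj
  have rB := ratB h hij.le (show j ≤ m by omega)
  have hpow : X * q ^ (m + 1) = q * (X * q ^ m) := by ring
  have hs : ∀ k : ℕ, X * q * q ^ k = X * q ^ (k + 1) := fun k => by ring
  have hwy0 : X + X * q ^ (m + 1) ≠ 0 := by simpa using h.xadd 0 (m + 1)
  rw [hpow] at rA rB hwy0
  have hay := ha.sub (le_refl m)
  have hby := hb.sub (le_refl m)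
  have haw := ha.add0
  have hbw := hb.add0
  have hy := h.xne m
  have hw := h.x0
  have hac := ha.qadd hq (show i ≤ m by omega)
  have hbc := hb.qadd hq (show i ≤ m by omega)
  have hda := ha.qsub hq (show j ≤ m by omega)
  have hdb := hb.qsub hq (show j ≤ m by omega)
  have had := ha.sub (show j + 1 ≤ m by omega)
  have hbd := hb.sub (show j + 1 ≤ m by omega)
  have hac' := ha.add (show i + 1 ≤ m by omega)
  have hbc' := hb.add (show i + 1 ≤ m by omega)
  have hcy : q * (X * q ^ m) + X * q ^ (i + 1) ≠ 0 := by rw [← hpow]; exact h.xadd _ _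
  have hdy : X * q ^ (j + 1) - q * (X * q ^ m) ≠ 0 := by rw [← hpow]; exact h.xsub (by omega)
  have hwd : X + X * q ^ (j + 1) ≠ 0 := by simpa using h.xadd 0 (j + 1)
  have hwc : X - X * q ^ (i + 1) ≠ 0 := by simpa using h.xsub (show (0 : ℕ) ≠ i + 1 by omega)
  have hLa := LfB (X := X) i (ha.qadd hq (Nat.zero_le m))
  have hLb := LfB (X := X) i (hb.qadd hq (Nat.zero_le m))
  set y := X * q ^ m with hyd
  set c := X * q ^ (i + 1) with hcd
  set d := X * q ^ (j + 1) with hdd
  set Q := q ^ m with hQ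
  have hac2 : a * q + c ≠ 0 := by rwa [mul_comm a q]
  have hbc2 : b * q + c ≠ 0 := by rwa [mul_comm b q]
  have hda2 : d - a * q ≠ 0 := by rwa [mul_comm a q]
  have hdb2 : d - b * q ≠ 0 := by rwa [mul_comm b q]
  have e00 := sI00 (Q := Q) hq ha.ne0 hb.ne0 hy hay hby haw hbw hwy0 hac2 hbc2 hda2 hdb2 hcy hdy
  have e10 := sI10 (Q := Q) hq ha.ne0 hb.ne0 hy hw hay hby haw hbw hwy0 hbc hdb had hac' hcy hdy
    hwd hwc
  have e01 := sI10 (Q := Q) hq hb.ne0 ha.ne0 hy hw hby hay hbw haw hwy0 hac hda hbd hbc' hcy hdy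
    hwd hwc
  have e11 := sI11 ha.ne0 hb.ne0 hw hay hby haw hbw hwy0 had hbd hac' hbc' hwd hwc
  have e01' := e01
  rw [mul_comm (b - y) (a - y), mul_comm (b + X) (a + X)] at e01'
  have key := glueI e00 e10 e01' e11 va vb
  have hZ : f1 q m (X * q) i j (-X) = (X + q * y) / (X + d) / (X * (X - c)) := by
    unfold f1
    rw [RfB (show j < m by omega), hs i]
    have e1 : -X - q * (X * q ^ m) = -(X + q * y) := by rw [hyd]; ring
    have e2 : -X - X * q ^ (j + 1) = -(X + d) := by rw [hdd]; ring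
    have e3 : -X * (-X + X * q ^ (i + 1)) = X * (X - c) := by rw [hcd]; ring
    rw [e1, e2, e3, neg_div_neg_eq]
  have hM : Fw q (m + 1) X (i + 1) (j + 1) a va b vb
      = Fg q a b (-(Q * q) * ((q * a + X) / (q * a + c)) / (a * (d - q * a)))
        ((a - q * y) / (a - d) / (a * (a + c)))
        (-(Q * q) * ((q * b + X) / (q * b + c)) / (b * (d - q * b)))
        ((b - q * y) / (b - d) / (b * (b + c))) va vb := by
    unfold Fw f0 f1
    rw [Lf_succ, Lf_succ, RfM (show j + 1 ≤ m by omega), RfM (show j + 1 ≤ m by omega), pow_succ q m]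
  have hA : alw q m X (i + 1) (j + 1) a va b vb
      = alg q y a b (-Q * ((q * a + X) / (q * a + c)) / (a * (d - q * a)))
              ((a - y) / (a - d) / (a * (a + c)))
              (-Q * ((q * b + X) / (q * b + c)) / (b * (d - q * b)))
              ((b - y) / (b - d) / (b * (b + c)))
              (-Q * ((q * y + X) / (q * y + c)) / (y * (d - q * y))) va vb := by
    unfold alw f0 f1
    rw [Lf_succ, Lf_succ, Lf_succ, RfA _ hay, RfA _ hby]
  have hB : bew q m X i j a va b vb
      = beg q (-X) a b (-Q * ((q * a + q * X) / (q * a + c)) / (a * (d - q * a)))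
              ((a - q * y) / (a - d) / (a * (a + c)))
              (-Q * ((q * b + q * X) / (q * b + c)) / (b * (d - q * b)))
              ((b - q * y) / (b - d) / (b * (b + c)))
              ((X + q * y) / (X + d) / (X * (X - c))) va vb := by
    unfold bew
    rw [hZ]
    unfold f0 f1
    rw [hLa, hLb, RfB (show j < m by omega), RfB (show j < m by omega), hs i, hs j]
  rw [hM, key, hA, hB]
  have rA' : -(q * y) * (c + q * y) * (d - q * y) / (X + q * y) * cc q (m + 1) X (i + 1) (j + 1)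
      = cc q m X (i + 1) (j + 1) * q ^ (m + 1) := by
    rw [div_mul_eq_mul_div, div_eq_iff hwy0, rA]
  have rB' : X * (X - c) * (X + d) / (X + q * y) * cc q (m + 1) X (i + 1) (j + 1)
      = cc q m (X * q) i j := by
    rw [div_mul_eq_mul_div, div_eq_iff hwy0, rB]
  rw [← rB']
  set AL := alg q y a b (-Q * ((q * a + X) / (q * a + c)) / (a * (d - q * a)))
              ((a - y) / (a - d) / (a * (a + c)))
              (-Q * ((q * b + X) / (q * b + c)) / (b * (d - q * b)))
              ((b - y) / (b - d) / (b * (b + c)))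
              (-Q * ((q * y + X) / (q * y + c)) / (y * (d - q * y))) va vb
  linear_combination (AL / ((a - y) * (b - y))) * rA'

theorem termII {q X : K} (h : Gen q X) {m j : ℕ} (hj : j + 1 ≤ m) {a b : K}
    (ha : Adm q (m + 1) X a) (hb : Adm q (m + 1) X b) (va vb : K) :
    cc q (m + 1) X 0 (j + 1) * Fw q (m + 1) X 0 (j + 1) a va b vb
      = cc q m X 0 (j + 1) * (q ^ (m + 1) / ((a - X * q ^ m) * (b - X * q ^ m))
          * alw q m X 0 (j + 1) a va b vb)
        + Tb q m X j a va b vb := by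
  have hq := h.q0
  have rA := ratA h (show 0 ≤ j + 1 by omega) hj
  have hpow : X * q ^ (m + 1) = q * (X * q ^ m) := by ring
  have hwy0 : X + X * q ^ (m + 1) ≠ 0 := by simpa using h.xadd 0 (m + 1)
  rw [pow_zero, mul_one, hpow] at rA
  rw [hpow] at hwy0
  have hay := ha.sub (le_refl m)
  have hby := hb.sub (le_refl m)
  have haw := ha.add0
  have hbw := hb.add0
  have hy := h.xne m
  have hda := ha.qsub hq (show j ≤ m by omega)
  have hdb := hb.qsub hq (show j ≤ m by omega)
  have had := ha.sub (show j + 1 ≤ m by omega)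
  have hbd := hb.sub (show j + 1 ≤ m by omega)
  have hdy : X * q ^ (j + 1) - q * (X * q ^ m) ≠ 0 := by rw [← hpow]; exact h.xsub (by omega)
  set y := X * q ^ m with hyd
  set d := X * q ^ (j + 1) with hdd
  set Q := q ^ m with hQ
  have hda2 : d - a * q ≠ 0 := by rwa [mul_comm a q]
  have hdb2 : d - b * q ≠ 0 := by rwa [mul_comm b q]
  have e00 := sII00 (Q := Q) hq ha.ne0 hb.ne0 hy hay hby hwy0 hda2 hdb2 hdy
  have e10 := sII10 (Q := Q) hq ha.ne0 hb.ne0 hy hay hby haw hbw hwy0 hdb had hdy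
  have e01 := sII10 (Q := Q) hq hb.ne0 ha.ne0 hy hby hay hbw haw hwy0 hda hbd hdy
  have e11 := sII11 ha.ne0 hb.ne0 hay hby haw hbw hwy0 had hbd
  rw [mul_comm (b - y) (a - y), mul_comm (b + X) (a + X)] at e01
  have key := glueII e00 e10 e01 e11 va vb
  have hM : Fw q (m + 1) X 0 (j + 1) a va b vb
      = Fg q a b (-(Q * q) * 1 / (a * (d - q * a)))
        ((a - q * y) / (a - d) / (a * (a + X)))
        (-(Q * q) * 1 / (b * (d - q * b)))
        ((b - q * y) / (b - d) / (b * (b + X))) va vb := by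
    unfold Fw f0 f1
    rw [Lf_zero, Lf_zero, RfM (show j + 1 ≤ m by omega), RfM (show j + 1 ≤ m by omega), pow_succ q m,
      pow_zero, mul_one X]
  have hA : alw q m X 0 (j + 1) a va b vb
      = alg q y a b (-Q * 1 / (a * (d - q * a)))
              ((a - y) / (a - d) / (a * (a + X)))
              (-Q * 1 / (b * (d - q * b)))
              ((b - y) / (b - d) / (b * (b + X)))
              (-Q * 1 / (y * (d - q * y))) va vb := by
    unfold alw f0 f1
    rw [Lf_zero, Lf_zero, Lf_zero, RfA _ hay, RfA _ hby, pow_zero, mul_one X]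
  have hca : ch q m X j a va
      = -Q * (q * X + q * a) / (a * (d - q * a)) + (a - q * y) / (a - d) / a * va := by
    unfold ch; rw [RfB (show j < m by omega)]
  have hcb : ch q m X j b vb
      = -Q * (q * X + q * b) / (b * (d - q * b)) + (b - q * y) / (b - d) / b * vb := by
    unfold ch; rw [RfB (show j < m by omega)]
  unfold Tb
  rw [hM, key, hA, hca, hcb]
  have rA' : -(q * y) * (X + q * y) * (d - q * y) / (X + q * y) * cc q (m + 1) X 0 (j + 1)
      = cc q m X 0 (j + 1) * q ^ (m + 1) := by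
    rw [div_mul_eq_mul_div, div_eq_iff hwy0, rA]
  set AL := alg q y a b (-Q * 1 / (a * (d - q * a)))
              ((a - y) / (a - d) / (a * (a + X)))
              (-Q * 1 / (b * (d - q * b)))
              ((b - y) / (b - d) / (b * (b + X)))
              (-Q * 1 / (y * (d - q * y))) va vb
  linear_combination (AL / ((a - y) * (b - y))) * rA'

theorem termIII {q X : K} (h : Gen q X) {m i : ℕ} (hi : i + 1 ≤ m) {a b : K}
    (ha : Adm q (m + 1) X a) (hb : Adm q (m + 1) X b) (va vb : K) :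
    cc q (m + 1) X (i + 1) (m + 1) * Fw q (m + 1) X (i + 1) (m + 1) a va b vb
      = Sa q m X (i + 1) a va b vb
        + cc q m (X * q) i m * (1 / ((a + X) * (b + X)) * bew q m X i m a va b vb) := by
  have hq := h.q0
  have rB := ratB h (show i ≤ m by omega) (le_refl m)
  have hpow : X * q ^ (m + 1) = q * (X * q ^ m) := by ring
  have hs : ∀ k : ℕ, X * q * q ^ k = X * q ^ (k + 1) := fun k => by ring
  have hwy0 : X + X * q ^ (m + 1) ≠ 0 := by simpa using h.xadd 0 (m + 1)
  rw [hpow] at rB hwy0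
  have hay := ha.sub (le_refl m)
  have hby := hb.sub (le_refl m)
  have haw := ha.add0
  have hbw := hb.add0
  have hw := h.x0
  have hac := ha.qadd hq (show i ≤ m by omega)
  have hbc := hb.qadd hq (show i ≤ m by omega)
  have hac' := ha.add (show i + 1 ≤ m by omega)
  have hbc' := hb.add (show i + 1 ≤ m by omega)
  have hwc : X - X * q ^ (i + 1) ≠ 0 := by simpa using h.xsub (show (0 : ℕ) ≠ i + 1 by omega)
  have hLa := LfB (X := X) i (ha.qadd hq (Nat.zero_le m))
  have hLb := LfB (X := X) i (hb.qadd hq (Nat.zero_le m))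
  set y := X * q ^ m with hyd
  set c := X * q ^ (i + 1) with hcd
  set Q := q ^ m with hQ
  have hac2 : a * q + c ≠ 0 := by rwa [mul_comm a q]
  have hbc2 : b * q + c ≠ 0 := by rwa [mul_comm b q]
  have hya : y - a ≠ 0 := by rw [← neg_sub]; exact neg_ne_zero.mpr hay
  have hyb : y - b ≠ 0 := by rw [← neg_sub]; exact neg_ne_zero.mpr hby
  have e00 := sIII00 (Q := Q) hq ha.ne0 hb.ne0 hay hby haw hbw hwy0 hac hbc hac2 hbc2 hya hyb
  have e10 := sIII10 (Q := Q) hq ha.ne0 hb.ne0 hw hay hby haw hbw hwy0 hbc hbc2 hac' hwc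
  have e01 := sIII10 (Q := Q) hq hb.ne0 ha.ne0 hw hby hay hbw haw hwy0 hac hac2 hbc' hwc
  have e11 := sIII11 (q := q) (y := y) ha.ne0 hb.ne0 hw haw hbw hwy0 hac' hbc' hwc
  rw [mul_comm (b - y) (a - y), mul_comm (b + X) (a + X)] at e01
  have key := glueIII e00 e10 e01 e11 va vb
  have hZ : f1 q m (X * q) i m (-X) = 1 / (X * (X - c)) := by
    unfold f1
    rw [RfT, hs i]
    have e3 : -X * (-X + X * q ^ (i + 1)) = X * (X - c) := by rw [hcd]; ring
    rw [e3]
  have hM : Fw q (m + 1) X (i + 1) (m + 1) a va b vb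
      = Fg q a b (-(Q * q) * ((q * a + X) / (q * a + c)) / (a * (q * y - q * a)))
        (1 / (a * (a + c)))
        (-(Q * q) * ((q * b + X) / (q * b + c)) / (b * (q * y - q * b)))
        (1 / (b * (b + c))) va vb := by
    unfold Fw f0 f1
    rw [Lf_succ, Lf_succ, RfT, RfT, hpow, pow_succ q m]
  have hB : bew q m X i m a va b vb
      = beg q (-X) a b (-Q * ((q * a + q * X) / (q * a + c)) / (a * (q * y - q * a)))
              (1 / (a * (a + c)))
              (-Q * ((q * b + q * X) / (q * b + c)) / (b * (q * y - q * b)))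
              (1 / (b * (b + c)))
              (1 / (X * (X - c))) va vb := by
    unfold bew
    rw [hZ]
    unfold f0 f1
    rw [hLa, hLb, RfT, RfT, hs i, hs m, hpow]
  have hpa : ps q m X (i + 1) a va
      = -Q * ((q * a + X) / (q * a + c)) / a + -((a - y) / (a * (a + c))) * va := by
    unfold ps; rw [Lf_succ]
  have hpb : ps q m X (i + 1) b vb
      = -Q * ((q * b + X) / (q * b + c)) / b + -((b - y) / (b * (b + c))) * vb := by
    unfold ps; rw [Lf_succ]
  have rB' : X * (X - c) * (X + q * y) / (X + q * y) * cc q (m + 1) X (i + 1) (m + 1)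
      = cc q m (X * q) i m := by
    rw [div_mul_eq_mul_div, div_eq_iff hwy0, rB]
  unfold Sa
  rw [hM, key, hB, hpa, hpb, ← rB', pow_succ q m]
  ring

theorem termIV {q X : K} (h : Gen q X) {m : ℕ} {a b : K}
    (ha : Adm q (m + 1) X a) (hb : Adm q (m + 1) X b) (va vb : K) :
    cc q (m + 1) X 0 (m + 1) * Fw q (m + 1) X 0 (m + 1) a va b vb
      = Sa q m X 0 a va b vb + Tb q m X m a va b vb := by
  have hq := h.q0
  have hpow : X * q ^ (m + 1) = q * (X * q ^ m) := by ring
  have hay := ha.sub (le_refl m)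
  have hby := hb.sub (le_refl m)
  have haw := ha.add0
  have hbw := hb.add0
  set y := X * q ^ m with hyd
  set Q := q ^ m with hQ
  have e00 := sIV00 (Q := Q) hq ha.ne0 hb.ne0 hay hby
  have e10 := sIV10 (Q := Q) hq ha.ne0 hb.ne0 hay hby haw hbw
  have e01 := sIV10 (Q := Q) hq hb.ne0 ha.ne0 hby hay hbw haw
  have e11 := sIV11 ha.ne0 hb.ne0 haw hbw
  rw [mul_comm (b - y) (a - y), mul_comm (b + X) (a + X)] at e01
  have key := glueIV e00 e10 e01 e11 va vb
  have hM : Fw q (m + 1) X 0 (m + 1) a va b vb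
      = Fg q a b (-(Q * q) * 1 / (a * (q * y - q * a)))
        (1 / (a * (a + X)))
        (-(Q * q) * 1 / (b * (q * y - q * b)))
        (1 / (b * (b + X))) va vb := by
    unfold Fw f0 f1
    rw [Lf_zero, Lf_zero, RfT, RfT, hpow, pow_succ q m, pow_zero, mul_one X]
  have hca : ch q m X m a va
      = -Q * (q * X + q * a) / (a * (q * y - q * a)) + 1 / a * va := by
    unfold ch; rw [RfT, hpow]
  have hcb : ch q m X m b vb
      = -Q * (q * X + q * b) / (b * (q * y - q * b)) + 1 / b * vb := by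
    unfold ch; rw [RfT, hpow]
  have hpa : ps q m X 0 a va = -Q * 1 / a + -((a - y) / (a * (a + X))) * va := by
    unfold ps; rw [Lf_zero, pow_zero, mul_one X]
  have hpb : ps q m X 0 b vb = -Q * 1 / b + -((b - y) / (b * (b + X))) * vb := by
    unfold ps; rw [Lf_zero, pow_zero, mul_one X]
  unfold Sa Tb
  rw [hM, key, hca, hcb, hpa, hpb, pow_succ q m]
  ring

end Pool.Agent.H30.WF
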