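import Pool.Agent.H30.WF.Term

/-!
Termwise form of the recursion, part without a run.
-/

namespace Pool.Agent.H30.WF

open Finset

variable {K : Type*} [Field K]

theorem termKI {q X : K} (h : Gen q X) {m i : ℕ} (hi : i + 1 ≤ m) {a b : K}
    (ha : Adm q (m + 1) X a) (hb : Adm q (m + 1) X b) (hab : a + b ≠ 0) (va vb : K) :
    ee q (m + 1) X (i + 1) * Kw q (m + 1) X (i + 1) a va b vb
      = ee q m X (i + 1) * (q ^ (m + 1) / ((a - X * q ^ m) * (b - X * q ^ m))
          * akw q m X (i + 1) a va b vb)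
        + ee q m (X * q) i * (1 / ((a + X) * (b + X)) * bkw q m X i a va b vb)
        + ee q (m + 1) X (i + 1) * Lam q (q ^ m) (X * q ^ m) X a b va vb := by
  have hq := h.q0
  have rA := eeA h (show i + 1 ≤ m by omega)
  have rB := eeB h (show i ≤ m by omega)
  have hpow : X * q ^ (m + 1) = q * (X * q ^ m) := by ring
  have hwy0 : X + X * q ^ (m + 1) ≠ 0 := by simpa using h.xadd 0 (m + 1)
  rw [hpow] at rA rB hwy0
  have hay := ha.sub (le_refl m)
  have hby := hb.sub (le_refl m)
  have hay' := ha.add (le_refl m)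
  have hby' := hb.add (le_refl m)
  have haw := ha.add0
  have hbw := hb.add0
  have haw' := ha.sub0
  have hbw' := hb.sub0
  have hy := h.xne m
  have hw := h.x0
  have hac := ha.qadd hq (show i ≤ m by omega)
  have hbc := hb.qadd hq (show i ≤ m by omega)
  have had := ha.sub (show i + 1 ≤ m by omega)
  have hbd := hb.sub (show i + 1 ≤ m by omega)
  have hcy : q * (X * q ^ m) + X * q ^ (i + 1) ≠ 0 := by rw [← hpow]; exact h.xadd _ _
  have hwc : X + X * q ^ (i + 1) ≠ 0 := by simpa using h.xadd 0 (i + 1)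
  have hLa := LfB (X := X) i (ha.qadd hq (Nat.zero_le m))
  have hLb := LfB (X := X) i (hb.qadd hq (Nat.zero_le m))
  set y := X * q ^ m with hyd
  set c := X * q ^ (i + 1) with hcd
  set Q := q ^ m with hQ
  have hac2 : a * q + c ≠ 0 := by rwa [mul_comm a q]
  have hbc2 : b * q + c ≠ 0 := by rwa [mul_comm b q]
  have hya' : y + a ≠ 0 := by rwa [add_comm]
  have hyb' : y + b ≠ 0 := by rwa [add_comm]
  have hwa : X - a ≠ 0 := by rw [← neg_sub]; exact neg_ne_zero.mpr haw'
  have hwb : X - b ≠ 0 := by rw [← neg_sub]; exact neg_ne_zero.mpr hbw'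
  have hzb : -X + b ≠ 0 := by intro e; exact hbw' (by linear_combination e)
  have haz : a + -X ≠ 0 := by intro e; exact haw' (by linear_combination e)
  have e00 := kI00 (Q := Q) ha.ne0 hb.ne0 hy hab hay hby haw hbw hay' hyb' hya' hwy0 hac hbc hac2
    hbc2 hcy
  have e10 := kI10 (Q := Q) ha.ne0 hb.ne0 hy hw hay hby haw hbw hwy0 had hbc hbc2 hcy hwc
  have e01 := kI10 (Q := Q) hb.ne0 ha.ne0 hy hw hby hay hbw haw hwy0 hbd hac hac2 hcy hwc
  have e11 := kI11 (q := q) ha.ne0 hb.ne0 hw hab hay hby haw hbw hwy0 had hbd hwc hwa hwb hzb haz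
  rw [mul_comm (b - y) (a - y), mul_comm (b + X) (a + X)] at e01
  have key := glueK e00 e10 e01 e11 va vb
  have hZ : kb q m (X * q) i (-X) = -((X + q * y) / (X + c) / X) := by
    unfold kb
    rw [RfB (show i < m by omega)]
    have e1 : -X - q * (X * q ^ m) = -(X + q * y) := by rw [hyd]; ring
    have e2 : -X - X * q ^ (i + 1) = -(X + c) := by rw [hcd]; ring
    rw [e1, e2, neg_div_neg_eq, div_neg]
  have hM : Kw q (m + 1) X (i + 1) a va b vb
      = Kg a b (-(Q * q) * ((q * a + X) / (q * a + c)) / a)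
        ((a - q * y) / (a - c) / a)
        (-(Q * q) * ((q * b + X) / (q * b + c)) / b)
        ((b - q * y) / (b - c) / b) va vb := by
    unfold Kw ka kb
    rw [Lf_succ, Lf_succ, RfM (show i + 1 ≤ m by omega), RfM (show i + 1 ≤ m by omega), pow_succ q m]
  have hA : akw q m X (i + 1) a va b vb
      = alk y a b (-Q * ((q * a + X) / (q * a + c)) / a)
              ((a - y) / (a - c) / a)
              (-Q * ((q * b + X) / (q * b + c)) / b)
              ((b - y) / (b - c) / b)
              (-Q * ((q * y + X) / (q * y + c)) / y) va vb := by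
    unfold akw ka kb
    rw [Lf_succ, Lf_succ, Lf_succ, RfA _ hay, RfA _ hby]
  have hB : bkw q m X i a va b vb
      = bek (-X) a b (-Q * ((q * a + q * X) / (q * a + c)) / a)
              ((a - q * y) / (a - c) / a)
              (-Q * ((q * b + q * X) / (q * b + c)) / b)
              ((b - q * y) / (b - c) / b)
              (-((X + q * y) / (X + c) / X)) va vb := by
    unfold bkw
    rw [hZ]
    unfold ka kb
    rw [hLa, hLb, RfB (show i < m by omega), RfB (show i < m by omega)]
  rw [hM, key, hA, hB]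
  have rA' : q * y * ((q * y) ^ 2 - c ^ 2) / (X + q * y) * ee q (m + 1) X (i + 1)
      = ee q m X (i + 1) * q ^ (m + 1) := by
    rw [div_mul_eq_mul_div, div_eq_iff hwy0, rA]
  have rB' : X * (X ^ 2 - c ^ 2) / (X + q * y) * ee q (m + 1) X (i + 1)
      = ee q m (X * q) i := by
    rw [div_mul_eq_mul_div, div_eq_iff hwy0, rB]
  rw [← rB']
  set AL := alk y a b (-Q * ((q * a + X) / (q * a + c)) / a)
              ((a - y) / (a - c) / a)
              (-Q * ((q * b + X) / (q * b + c)) / b)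
              ((b - y) / (b - c) / b)
              (-Q * ((q * y + X) / (q * y + c)) / y) va vb
  linear_combination (AL / ((a - y) * (b - y))) * rA'

theorem termKII {q X : K} (h : Gen q X) {m : ℕ} {a b : K}
    (ha : Adm q (m + 1) X a) (hb : Adm q (m + 1) X b) (hab : a + b ≠ 0) (va vb : K) :
    ee q (m + 1) X 0 * Kw q (m + 1) X 0 a va b vb
      = ee q m X 0 * (q ^ (m + 1) / ((a - X * q ^ m) * (b - X * q ^ m))
          * akw q m X 0 a va b vb)
        + ee q (m + 1) X 0 * Lam q (q ^ m) (X * q ^ m) X a b va vb := by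
  have rA := eeA h (Nat.zero_le m)
  have hpow : X * q ^ (m + 1) = q * (X * q ^ m) := by ring
  have hwy0 : X + X * q ^ (m + 1) ≠ 0 := by simpa using h.xadd 0 (m + 1)
  rw [hpow, pow_zero, mul_one X] at rA
  rw [hpow] at hwy0
  have hay := ha.sub (le_refl m)
  have hby := hb.sub (le_refl m)
  have hay' := ha.add (le_refl m)
  have hby' := hb.add (le_refl m)
  have haw' := ha.sub0
  have hbw' := hb.sub0
  have hy := h.xne m
  set y := X * q ^ m with hyd
  set Q := q ^ m with hQ
  have hya' : y + a ≠ 0 := by rwa [add_comm]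
  have hyb' : y + b ≠ 0 := by rwa [add_comm]
  have e00 := kII00 (Q := Q) ha.ne0 hb.ne0 hy hab hay hby hyb' hya' hwy0
  have e10 := kII10 (Q := Q) ha.ne0 hb.ne0 hy hay hby hwy0 haw'
  have e01 := kII10 (Q := Q) hb.ne0 ha.ne0 hy hby hay hwy0 hbw'
  have e11 := kII11 ha.ne0 hb.ne0 hab hay hby hwy0 haw' hbw'
  rw [mul_comm (b - y) (a - y)] at e01
  have key := glueKA e00 e10 e01 e11 va vb
  have hRa : Rf q (m + 1) X 0 a = (a - q * y) / (a - X) := by
    rw [RfM (Nat.zero_le m), pow_zero, mul_one X]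
  have hRb : Rf q (m + 1) X 0 b = (b - q * y) / (b - X) := by
    rw [RfM (Nat.zero_le m), pow_zero, mul_one X]
  have hRa' : Rf q m X 0 a = (a - y) / (a - X) := by
    rw [RfA 0 hay, pow_zero, mul_one X]
  have hRb' : Rf q m X 0 b = (b - y) / (b - X) := by
    rw [RfA 0 hby, pow_zero, mul_one X]
  have hM : Kw q (m + 1) X 0 a va b vb
      = Kg a b (-(Q * q) * 1 / a) ((a - q * y) / (a - X) / a)
        (-(Q * q) * 1 / b) ((b - q * y) / (b - X) / b) va vb := by
    unfold Kw ka kb
    rw [Lf_zero, Lf_zero, hRa, hRb, pow_succ q m]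
  have hA : akw q m X 0 a va b vb
      = alk y a b (-Q * 1 / a) ((a - y) / (a - X) / a) (-Q * 1 / b)
              ((b - y) / (b - X) / b) (-Q * 1 / y) va vb := by
    unfold akw ka kb
    rw [Lf_zero, Lf_zero, Lf_zero, hRa', hRb']
  rw [hM, key, hA]
  have rA' : q * y * ((q * y) ^ 2 - X ^ 2) / (X + q * y) * ee q (m + 1) X 0
      = ee q m X 0 * q ^ (m + 1) := by
    rw [div_mul_eq_mul_div, div_eq_iff hwy0, rA]
  set AL := alk y a b (-Q * 1 / a) ((a - y) / (a - X) / a) (-Q * 1 / b)
              ((b - y) / (b - X) / b) (-Q * 1 / y) va vb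
  linear_combination (AL / ((a - y) * (b - y))) * rA'

theorem termKIII {q X : K} (h : Gen q X) {m : ℕ} {a b : K}
    (ha : Adm q (m + 1) X a) (hb : Adm q (m + 1) X b) (hab : a + b ≠ 0) (va vb : K) :
    ee q (m + 1) X (m + 1) * Kw q (m + 1) X (m + 1) a va b vb
      = ee q m (X * q) m * (1 / ((a + X) * (b + X)) * bkw q m X m a va b vb)
        + ee q (m + 1) X (m + 1) * Lam q (q ^ m) (X * q ^ m) X a b va vb := by
  have hq := h.q0
  have rB := eeB h (le_refl m)
  have hpow : X * q ^ (m + 1) = q * (X * q ^ m) := by ring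
  have hwy0 : X + X * q ^ (m + 1) ≠ 0 := by simpa using h.xadd 0 (m + 1)
  rw [hpow] at rB hwy0
  have hay' := ha.add (le_refl m)
  have hby' := hb.add (le_refl m)
  have haw := ha.add0
  have hbw := hb.add0
  have haw' := ha.sub0
  have hbw' := hb.sub0
  have hw := h.x0
  have hLa := LfB (X := X) m (ha.qadd hq (Nat.zero_le m))
  have hLb := LfB (X := X) m (hb.qadd hq (Nat.zero_le m))
  rw [hpow] at hLa hLb
  set y := X * q ^ m with hyd
  set Q := q ^ m with hQ
  have hya' : y + a ≠ 0 := by rwa [add_comm]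
  have hyb' : y + b ≠ 0 := by rwa [add_comm]
  have hwa : X - a ≠ 0 := by rw [← neg_sub]; exact neg_ne_zero.mpr haw'
  have hwb : X - b ≠ 0 := by rw [← neg_sub]; exact neg_ne_zero.mpr hbw'
  have e00 := kIII00 (Q := Q) hq ha.ne0 hb.ne0 hab haw hbw hyb' hya' hwy0
  have e10 := kIII10 (Q := Q) hq ha.ne0 hb.ne0 hw haw hbw hyb' hwy0
  have e01 := kIII10 (Q := Q) hq hb.ne0 ha.ne0 hw hbw haw hya' hwy0
  have e11 := kIII11 (q := q) (y := y) ha.ne0 hb.ne0 hw hab haw hbw hwy0 hwa hwb
  rw [mul_comm (b + X) (a + X)] at e01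
  have key := glueKB e00 e10 e01 e11 va vb
  have hZ : kb q m (X * q) m (-X) = -(1 / X) := by
    unfold kb
    rw [RfT, div_neg]
  have hM : Kw q (m + 1) X (m + 1) a va b vb
      = Kg a b (-(Q * q) * ((q * a + X) / (q * a + q * y)) / a) (1 / a)
        (-(Q * q) * ((q * b + X) / (q * b + q * y)) / b) (1 / b) va vb := by
    unfold Kw ka kb
    rw [Lf_succ, Lf_succ, RfT, RfT, hpow, pow_succ q m]
  have hB : bkw q m X m a va b vb
      = bek (-X) a b (-Q * ((q * a + q * X) / (q * a + q * y)) / a) (1 / a)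
              (-Q * ((q * b + q * X) / (q * b + q * y)) / b) (1 / b)
              (-(1 / X)) va vb := by
    unfold bkw
    rw [hZ]
    unfold ka kb
    rw [hLa, hLb, RfT, RfT]
  rw [hM, key, hB]
  have rB' : X * (X ^ 2 - (q * y) ^ 2) / (X + q * y) * ee q (m + 1) X (m + 1)
      = ee q m (X * q) m := by
    rw [div_mul_eq_mul_div, div_eq_iff hwy0, rB]
  rw [← rB']
  ring

end Pool.Agent.H30.WF
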